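import Pool.Agent.N550.PS.Stm

/-!
# Project PS: the fibre is a manifold

Lean proof: helper768.
-/

set_option autoImplicit false

open Set Filter Topology Metric Function MeasureTheory
open scoped Manifold ContDiff

noncomputable section

namespace Pool.Agent.N550.PS.Fib

open Pool.Agent.Y522 Pool.Agent.N550.SH Pool.Agent.N550.KH

/-- kernels of surjective functionals -/
theorem lin_alg {m : ℕ} (D : E m →L[ℝ] E (m + 1)) (L : E (m + 1) →L[ℝ] E 1) (hD : Injective D)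
    (hL : Surjective L) (h : ∀ w, L (D w) = 0) (v : E (m + 1)) (hv : L v = 0) : ∃ w, D w = v := by
  have h1 : LinearMap.range (D : E m →ₗ[ℝ] E (m + 1)) ≤
      LinearMap.ker (L : E (m + 1) →ₗ[ℝ] E 1) := by
    rintro _ ⟨w, rfl⟩
    rw [LinearMap.mem_ker]
    exact h w
  have h2 : Module.finrank ℝ (LinearMap.range (D : E m →ₗ[ℝ] E (m + 1))) = m := by
    rw [LinearMap.finrank_range_of_inj hD, finrank_euclideanSpace, Fintype.card_fin]
  have h3 : Module.finrank ℝ (LinearMap.ker (L : E (m + 1) →ₗ[ℝ] E 1)) = m := by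
    have h4 := LinearMap.finrank_range_add_finrank_ker (L : E (m + 1) →ₗ[ℝ] E 1)
    rw [LinearMap.range_eq_top.2 hL, finrank_top, finrank_euclideanSpace, Fintype.card_fin,
      finrank_euclideanSpace, Fintype.card_fin] at h4
    omega
  have h5 := Submodule.eq_of_le_of_finrank_eq h1 (h2.trans h3.symm)
  have h6 : v ∈ LinearMap.range (D : E m →ₗ[ℝ] E (m + 1)) := by
    rw [h5, LinearMap.mem_ker]
    exact hv
  obtain ⟨w, hw⟩ := h6
  exact ⟨w, hw⟩

/-- the only coordinate of `E 1` -/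
def c0 : E 1 →L[ℝ] ℝ := EuclideanSpace.proj (0 : Fin 1)

theorem c0_inj {x y : E 1} (h : c0 x = c0 y) : x = y := by
  ext i
  fin_cases i
  exact h

section

variable {m : ℕ} {M : Type} [TopologicalSpace M] [ChartedSpace (E (m + 1)) M]
  {p : M → Sp 1} {a : Sp 1}

theorem chart_smooth (u : Sp 1) (hu : u ∈ (chartAt (E 1) a).source) :
    ContMDiffAt (𝓡 1) (𝓡 1) ∞ (chartAt (E 1) a) u :=
  (contMDiffOn_chart u hu).contMDiffAt ((chartAt (E 1) a).open_source.mem_nhds hu)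

theorem smooth_f {x : M} (hp : ContMDiffAt (𝓡 (m + 1)) (𝓡 1) ∞ p x)
    (hx : p x ∈ (chartAt (E 1) a).source) :
    ContMDiffAt (𝓡 (m + 1)) 𝓘(ℝ, ℝ) ∞ (fun y => c0 (chartAt (E 1) a (p y))) x := by
  have h1 : ContMDiffAt (𝓡 (m + 1)) (𝓡 1) ∞ (fun y => chartAt (E 1) a (p y)) x :=
    ContMDiffAt.comp (g := chartAt (E 1) a) x (chart_smooth _ hx) hp
  exact ContMDiffAt.comp (g := c0) x c0.contDiff.contMDiff.contMDiffAt h1

theorem deriv_f {x : M} (hpx : p x = a) (hp : ContMDiffAt (𝓡 (m + 1)) (𝓡 1) ∞ p x)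
    (hs : Surjective (mfderiv (𝓡 (m + 1)) (𝓡 1) p x)) :
    mfderiv (𝓡 (m + 1)) 𝓘(ℝ, ℝ) (fun y => c0 (chartAt (E 1) a (p y))) x ≠ 0 := by
  have hsrc : p x ∈ (chartAt (E 1) a).source := by rw [hpx]; exact mem_chart_source _ a
  have hφ := chart_smooth (a := a) (p x) hsrc
  have h1 : ContMDiffAt (𝓡 (m + 1)) (𝓡 1) ∞ (fun y => chartAt (E 1) a (p y)) x :=
    ContMDiffAt.comp (g := chartAt (E 1) a) x hφ hp
  have e1 : mfderiv (𝓡 (m + 1)) (𝓡 1) (fun y => chartAt (E 1) a (p y)) x =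
      (mfderiv (𝓡 1) (𝓡 1) (chartAt (E 1) a) (p x)).comp (mfderiv (𝓡 (m + 1)) (𝓡 1) p x) :=
    mfderiv_comp x (hφ.mdifferentiableAt (by simp)) (hp.mdifferentiableAt (by simp))
  have e2 : mfderiv (𝓡 (m + 1)) 𝓘(ℝ, ℝ) (fun y => c0 (chartAt (E 1) a (p y))) x =
      c0.comp (mfderiv (𝓡 (m + 1)) (𝓡 1) (fun y => chartAt (E 1) a (p y)) x) := by
    have h2 : (fun y => c0 (chartAt (E 1) a (p y))) = c0 ∘ (fun y => chartAt (E 1) a (p y)) := rfl
    rw [h2, mfderiv_comp x (c0.contDiff.contMDiff.mdifferentiableAt (n := ∞) (by simp))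
      (h1.mdifferentiableAt (by simp)), mfderiv_eq_fderiv, c0.fderiv]
    rfl
  have e3 : mfderiv (𝓡 (m + 1)) 𝓘(ℝ, ℝ) (fun y => c0 (chartAt (E 1) a (p y))) x =
      c0.comp ((mfderiv (𝓡 1) (𝓡 1) (chartAt (E 1) a) (p x)).comp
        (mfderiv (𝓡 (m + 1)) (𝓡 1) p x)) := by
    rw [e2, e1]
  intro h0
  -- a vector
  obtain ⟨w, hw⟩ : ∃ w : E 1, w ≠ 0 := exists_ne 0
  obtain ⟨v, hv⟩ := hs w
  have hinj : Injective (mfderiv (𝓡 1) (𝓡 1) (chartAt (E 1) a) (p x)) := by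
    rw [hpx]
    exact (Pool.Agent.Y641.SH.LD_chart (n := 1) a).mfderiv_injective
  have h3 : c0 (mfderiv (𝓡 1) (𝓡 1) (chartAt (E 1) a) (p x)
      (mfderiv (𝓡 (m + 1)) (𝓡 1) p x v)) = 0 := by
    have h4 := DFunLike.congr_fun (h0.symm.trans e3) v
    exact h4.symm
  rw [hv] at h3
  have h5 : mfderiv (𝓡 1) (𝓡 1) (chartAt (E 1) a) (p x) w = 0 := c0_inj (h3.trans (map_zero c0).symm)
  exact hw (hinj (h5.trans (map_zero _).symm))

end

theorem main : S_FIB := by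
  intro m M _ _ _ p a hpc hp
  have hflat : LocFlat m {x : M | p x = a} := by
    intro x hx
    have hpx : p x = a := hx
    have hsrc : ∀ᶠ y in 𝓝 x, p y ∈ (chartAt (E 1) a).source := by
      apply hpc.continuousAt.eventually
      rw [hpx]
      exact (chartAt (E 1) a).open_source.mem_nhds (mem_chart_source _ a)
    obtain ⟨e, he, -, he2⟩ := Pool.Agent.Y641.SH.stAdapt m M
      (fun y => c0 (chartAt (E 1) a (p y))) x (by
        filter_upwards [(hp x hpx).1, hsrc] with y hy hy2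
        exact smooth_f hy hy2) (deriv_f hpx (hp x hpx).1.self_of_nhds (hp x hpx).2)
    refine ⟨e, he, ?_⟩
    filter_upwards [he2, hsrc] with y hy hy2
    rw [hy, sub_eq_zero]
    constructor
    · intro h
      have h1 : p y = a := h
      rw [h1, hpx]
    · intro h
      have h1 := c0_inj h
      rw [hpx] at h1
      exact (chartAt (E 1) a).injOn hy2 (mem_chart_source _ a) h1
  obtain ⟨cs, hmf, hv1, hv2⟩ : ∃ (_ : ChartedSpace (E m) {x : M // p x = a}),
      IsManifold (𝓡 m) ∞ {x : M // p x = a} ∧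
      ContMDiff (𝓡 m) (𝓡 (m + 1)) ∞ (Subtype.val : {x : M // p x = a} → M) ∧
      ∀ s : {x : M // p x = a},
        Injective (mfderiv (𝓡 m) (𝓡 (m + 1)) (Subtype.val : {x : M // p x = a} → M) s) :=
    Pool.Agent.Y641.SH.stLevel m M {x | p x = a} hflat
  refine ⟨cs, hmf, hv1, hv2, ?_⟩
  intro y v hv
  have hpy : p (y : M) = a := y.2
  have hpd := (hp y hpy).1.self_of_nhds
  have hcomp : mfderiv (𝓡 m) (𝓡 1) (fun z : {x : M // p x = a} => p (z : M)) y =
      (mfderiv (𝓡 (m + 1)) (𝓡 1) p (y : M)).comp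
        (mfderiv (𝓡 m) (𝓡 (m + 1)) (Subtype.val : {x : M // p x = a} → M) y) :=
    mfderiv_comp y (hpd.mdifferentiableAt (by simp)) (hv1.mdifferentiableAt (by simp))
  have hconst : mfderiv (𝓡 m) (𝓡 1) (fun z : {x : M // p x = a} => p (z : M)) y = 0 := by
    have h1 : (fun z : {x : M // p x = a} => p (z : M)) = fun _ => a := funext fun z => z.2
    rw [h1]
    exact mfderiv_const
  exact lin_alg (mfderiv (𝓡 m) (𝓡 (m + 1)) (Subtype.val : {x : M // p x = a} → M) y)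
    (mfderiv (𝓡 (m + 1)) (𝓡 1) p (y : M)) (hv2 y) (hp y hpy).2
    (fun w => (DFunLike.congr_fun (hconst.symm.trans hcomp) w).symm) v hv

end Pool.Agent.N550.PS.Fib
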