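import Pool.Agent.N550.PS.Cir

/-!
# Project PS: the final assembly
-/

set_option autoImplicit false

open Set Filter Topology Metric Function MeasureTheory
open scoped Manifold ContDiff

noncomputable section

namespace Pool.Agent.N550.PS.Fin'

open Pool.Agent.Y522 Pool.Agent.N550.SH Pool.Agent.N550.KH Pool.Agent.N550.PS
open Pool.Agent.N550.PS.Cir

theorem ste_symm_ld (k : ℕ) (a : Sp k) (z : E k) : LD k (ste k a).symm z := by
  have h := LD.inverse (k := ste k a) (U := {a}ᶜ) isOpen_compl_singleton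
    (fun x hx => ste_ld k a x hx) (g := (ste k a).symm) (fun x hx => ste_left k a x hx)
    (x := (ste k a).symm z) (ste_symm_ne k a z)
  rwa [ste_right] at h

theorem nears_congr {n k : ℕ} {M : Type} [TopologicalSpace M] [ChartedSpace (E n) M]
    {p p' : M → Sp k} {x : M} (h : NearS (n := n) p x) (he : p' =ᶠ[𝓝 x] p) :
    NearS (n := n) p' x := by
  filter_upwards [h, he.eventuallyEq_nhds] with y hy hy'
  exact hy.congr_of_eventuallyEq hy'

theorem main : S_GEN → S_CIR → S_FIB → S_PI → S_PR → S_MOV → S_CELL → S_ASM → S_FIN := by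
  intro hGen hCir hFib hPi hPr hMov hCell hAsm M _ _ _ p₀ q₀ h₀ hN₀
  have hcM : CompactSpace M := h₀.homeomorph.symm.compactSpace
  have hT2 : T2Space M := h₀.homeomorph.symm.t2Space
  obtain ⟨a, b, P, Q, hP, hQ, haP, hbQ, hfp, hfq, hTr⟩ :=
    hGen 1 3 4 M p₀ q₀ rfl one_pos (by norm_num) h₀ hN₀
  obtain ⟨p, q, P', hpq, hN, hP', haP', hcg, hpa, hTq⟩ :=
    hCir 3 M p₀ q₀ a b P (by norm_num) h₀ hN₀ hP haP hfq
      (fun x hx hpx => hTr x hpx (by rw [hx]; exact hbQ))
  have hp₀c : Continuous p₀ := continuous_fst.comp h₀.continuous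
  have hpc : Continuous p := continuous_fst.comp hpq.continuous
  have hqc : Continuous q := continuous_snd.comp hpq.continuous
  have hfib : ∀ x, p x = a → NearS (n := 4) p x ∧ NearS (n := 4) q x ∧
      Surjective (mfderiv (𝓡 4) (𝓡 1) p x) := by
    intro x hx
    have hx0 : p₀ x = a := (hpa x).1 hx
    have hev : ∀ᶠ y in 𝓝 x, p₀ y ∈ P' :=
      (hP'.preimage hp₀c).mem_nhds (show p₀ x ∈ P' by rw [hx0]; exact haP')
    have e1 : p =ᶠ[𝓝 x] p₀ := by
      filter_upwards [hev] with y hy using (hcg y hy).1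
    have e2 : q =ᶠ[𝓝 x] q₀ := by
      filter_upwards [hev] with y hy using (hcg y hy).2
    obtain ⟨g1, g2, g3⟩ := hfp x hx0
    refine ⟨nears_congr g1 e1, nears_congr g2 e2, ?_⟩
    have e3 : (mfderiv (𝓡 4) (𝓡 1) p x : E 4 →L[ℝ] E 1) = mfderiv (𝓡 4) (𝓡 1) p₀ x :=
      e1.mfderiv_eq
    intro w
    obtain ⟨v, hv⟩ := g3 w
    exact ⟨v, (DFunLike.congr_fun e3 v).trans hv⟩
  -- the fibre
  obtain ⟨cs, hmf, hv, hvi, hker⟩ :=
    hFib 3 M p a hpc (fun x hx => ⟨(hfib x hx).1, (hfib x hx).2.2⟩)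
  have hcY : CompactSpace {x : M // p x = a} :=
    isCompact_iff_compactSpace.1 (isClosed_eq hpc continuous_const).isCompact
  have hinj : ∀ x y, p x = p y → q x = q y → x = y := fun x y h1 h2 =>
    hpq.injective (Prod.ext h1 h2)
  have hsur : ∀ u w, ∃ x, p x = u ∧ q x = w := by
    intro u w
    obtain ⟨x, hx⟩ := hpq.surjective (u, w)
    exact ⟨x, congrArg Prod.fst hx, congrArg Prod.snd hx⟩
  have hfbij : Bijective (fun y : {x : M // p x = a} => q y.1) := by
    constructor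
    · intro y y' h
      exact Subtype.ext (hinj _ _ (y.2.trans y'.2.symm) h)
    · intro w
      obtain ⟨x, hx1, hx2⟩ := hsur a w
      exact ⟨⟨x, hx1⟩, hx2⟩
  let f : {x : M // p x = a} ≃ₜ Sp 3 :=
    Continuous.homeoOfEquivCompactToT2 (f := Equiv.ofBijective _ hfbij)
      (hqc.comp continuous_subtype_val)
  have hfx : ∀ y, f y = q y.1 := fun y => rfl
  have hfs : ∀ y, ContMDiffAt (𝓡 3) (𝓡 3) ∞ f y := fun y =>
    ContMDiffAt.comp (g := q) y (hfib y.1 y.2).2.1.self_of_nhds (hv y)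
  have hbad : KH.Bad 3 f = ∅ := by
    refine Set.eq_empty_iff_forall_notMem.2 fun y hy => ?_
    exact hy (Eventually.of_forall hfs)
  have hnull : NullH 3 (f '' KH.Bad 3 f) := by
    intro h _ _
    rw [hbad, image_empty, preimage_empty]
    exact measure_empty
  have hc3r : range ((ste 3 b).symm : E 3 → Sp 3) = {b}ᶜ := by
    ext u
    constructor
    · rintro ⟨z, rfl⟩
      exact ste_symm_ne 3 b z
    · intro hu
      exact ⟨ste 3 b u, ste_left 3 b u hu⟩
  obtain ⟨cY, hcYi, hcYl, hcYr⟩ := hCell 3 {x : M // p x = a} (Sp 3) f (ste 3 b).symm hnull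
    (fun z w h => by rw [← ste_right 3 b z, h, ste_right 3 b w]) (ste_symm_ld 3 b)
  have hcYr' : range cY = {y : {x : M // p x = a} | q y.1 ≠ b} := by
    rw [hcYr, hc3r]
    rfl
  obtain ⟨x₁, hx₁, hx₁'⟩ := hsur a b
  -- the second projection
  obtain ⟨π, hπ1, hπ2, hπ3⟩ := hPi 3 M {x : M // p x = a} Subtype.val p q a b cY (by norm_num)
    hpq (fun x hx => by
      rcases hx with hx | hx
      · exact ⟨(hfib x hx).1, (hfib x hx).2.1⟩
      · exact ⟨(hTq x hx).1, (hTq x hx).2.1⟩) hTq Subtype.val_injective hv hvi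
    Subtype.range_val hker hcYi hcYl hcYr'
  obtain ⟨csP, hPa, hPb⟩ := hPr 3 {x : M // p x = a}
  obtain ⟨c', hc'i, hc'r, hc'l⟩ := cell (rfl : 1 + 3 = 4) p q hpq hN a b
  have hy₁ : ∀ y : {x : M // p x = a}, q y.1 = b ↔ y = ⟨x₁, hx₁⟩ := by
    intro y
    constructor
    · intro h
      exact Subtype.ext (hinj _ _ (y.2.trans hx₁.symm) (h.trans hx₁'.symm))
    · rintro rfl
      exact hx₁'
  -- the cell in the product
  let c : E 4 → Sp 1 × {x : M // p x = a} := fun z =>
    ((ste 1 a).symm (up 1 3 z), cY (vp 1 3 z))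
  have hci : Injective c := by
    intro z w h
    have h1 : (ste 1 a).symm (up 1 3 z) = (ste 1 a).symm (up 1 3 w) := congrArg Prod.fst h
    have h2 : vp 1 3 z = vp 1 3 w := hcYi (congrArg Prod.snd h)
    have h3 : up 1 3 z = up 1 3 w := by
      rw [← ste_right 1 a (up 1 3 z), h1, ste_right]
    have h4 := jn_up_vp 1 3 z
    rw [h3, h2, jn_up_vp] at h4
    exact h4.symm
  have hcr : range c = {w | w.1 = a ∨ w.2 = ⟨x₁, hx₁⟩}ᶜ := by
    ext ⟨u, y⟩
    constructor
    · rintro ⟨z, hz⟩ hcon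
      have e1 : (ste 1 a).symm (up 1 3 z) = u := congrArg Prod.fst hz
      have e2 : cY (vp 1 3 z) = y := congrArg Prod.snd hz
      rcases hcon with h | h
      · exact ste_symm_ne 1 a (up 1 3 z) (e1.trans h)
      · have h5 : cY (vp 1 3 z) ∈ range cY := mem_range_self _
        rw [hcYr', e2] at h5
        exact h5 ((hy₁ y).2 h)
    · intro hcon
      have h1 : u ≠ a := fun h => hcon (Or.inl h)
      have h2 : y ≠ ⟨x₁, hx₁⟩ := fun h => hcon (Or.inr h)
      have h3 : y ∈ range cY := by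
        rw [hcYr']
        exact fun h => h2 ((hy₁ y).1 h)
      obtain ⟨s, hs⟩ := h3
      refine ⟨jn 1 3 (ste 1 a u) s, ?_⟩
      show ((ste 1 a).symm (up 1 3 (jn 1 3 (ste 1 a u) s)), cY (vp 1 3 (jn 1 3 (ste 1 a u) s))) = _
      rw [up_jn, vp_jn, ste_left 1 a u h1, hs]
  have hup : ContMDiff (𝓡 4) (𝓡 1) ∞ (up 1 3) := (up 1 3).contDiff.contMDiff
  have hvp : ContMDiff (𝓡 4) (𝓡 3) ∞ (vp 1 3) := (vp 1 3).contDiff.contMDiff
  have hcl : ∀ z, LD 4 c z := by
    intro z
    refine hPa (E 4) (fun z => (ste 1 a).symm (up 1 3 z)) (fun z => cY (vp 1 3 z)) z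
      (Eventually.of_forall fun w => ?_) (Eventually.of_forall fun w => ?_) ?_
    · exact ContMDiffAt.comp (g := (ste 1 a).symm) w (ste_symm_smooth 1 a _) (hup w)
    · exact ContMDiffAt.comp (g := cY) w (hcYl _).contMDiffAt (hvp w)
    · intro v hv1 hv2
      have e1 : mfderiv (𝓡 4) (𝓡 1) (fun z => (ste 1 a).symm (up 1 3 z)) z =
          (mfderiv (𝓡 1) (𝓡 1) (ste 1 a).symm (up 1 3 z)).comp
            (mfderiv (𝓡 4) (𝓡 1) (up 1 3) z) :=
        mfderiv_comp z (ste_symm_ld 1 a _).mdifferentiableAt (hup.mdifferentiableAt (by simp))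
      have e2 : mfderiv (𝓡 4) (𝓡 3) (fun z => cY (vp 1 3 z)) z =
          (mfderiv (𝓡 3) (𝓡 3) cY (vp 1 3 z)).comp
            (mfderiv (𝓡 4) (𝓡 3) (vp 1 3) z) :=
        mfderiv_comp z (hcYl _).mdifferentiableAt (hvp.mdifferentiableAt (by simp))
      have e3 : mfderiv (𝓡 4) (𝓡 1) (up 1 3) z = up 1 3 := by
        rw [mfderiv_eq_fderiv]; exact (up 1 3).fderiv
      have e4 : mfderiv (𝓡 4) (𝓡 3) (vp 1 3) z = vp 1 3 := by
        rw [mfderiv_eq_fderiv]; exact (vp 1 3).fderiv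
      have f1 : up 1 3 v = 0 := by
        apply (ste_symm_ld 1 a (up 1 3 z)).mfderiv_injective
        rw [e1, e3] at hv1
        exact hv1.trans (map_zero _).symm
      have f2 : vp 1 3 v = 0 := by
        apply (hcYl (vp 1 3 z)).mfderiv_injective
        rw [e2, e4] at hv2
        exact hv2.trans (map_zero _).symm
      have f3 : jn 1 3 (up 1 3 v) (vp 1 3 v) = (v : E 4) := jn_up_vp 1 3 v
      have f4 : jn 1 3 (0 : E 1) (0 : E 3) = (0 : E 4) := by
        ext i
        refine Fin.addCases (m := 1) (n := 3) (fun i => ?_) (fun i => ?_) i <;> simp [jn]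
      rw [f1, f2, f4] at f3
      exact f3.symm
  -- the map near the complement of the cell
  have hgl : ∀ x ∈ {x | p x = a ∨ q x = b}, LD 4 (fun x => (p x, π x)) x := by
    intro x hx
    obtain ⟨h1, h2⟩ := hπ3 x hx
    refine hPa M p π x ?_ h1 h2
    rcases hx with hx | hx
    · exact (hfib x hx).1
    · exact (hTq x hx).1
  have hgi : InjOn (fun x => (p x, π x)) {x | p x = a ∨ q x = b} := by
    intro x hx y hy hxy
    have h1 : p x = p y := congrArg Prod.fst hxy
    have h2 : π x = π y := congrArg Prod.snd hxy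
    by_cases hxa : p x = a
    · have h3 : π x = ⟨x, hxa⟩ := hπ1 ⟨x, hxa⟩
      have h4 : π y = ⟨y, h1.symm.trans hxa⟩ := hπ1 ⟨y, h1.symm.trans hxa⟩
      rw [h3, h4] at h2
      exact congrArg Subtype.val h2
    · have hya : p y ≠ a := fun h => hxa (h1.trans h)
      have h3 : q x = b := hx.resolve_left hxa
      have h4 : q y = b := hy.resolve_left hya
      exact hinj x y h1 (h3.trans h4.symm)
  have hgr : (fun x => (p x, π x)) '' {x | p x = a ∨ q x = b} =
      {w | w.1 = a ∨ w.2 = ⟨x₁, hx₁⟩} := by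
    ext ⟨u, y⟩
    constructor
    · rintro ⟨x, hx, hxe⟩
      have e1 : p x = u := congrArg Prod.fst hxe
      have e2 : π x = y := congrArg Prod.snd hxe
      rcases hx with hx | hx
      · exact Or.inl (e1.symm.trans hx)
      · refine Or.inr ?_
        rw [← e2]
        exact (hy₁ _).1 (hπ2 x hx)
    · rintro (h | h)
      · have h' : u = a := h
        exact ⟨y.1, Or.inl y.2, Prod.ext (y.2.trans h'.symm) (hπ1 y)⟩
      · have h' : y = ⟨x₁, hx₁⟩ := h
        obtain ⟨x, hx1, hx2⟩ := hsur u b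
        refine ⟨x, Or.inr hx2, Prod.ext hx1 ?_⟩
        show π x = y
        rw [h']
        exact (hy₁ _).1 (hπ2 x hx2)
  obtain ⟨G, x₀, hG⟩ := hAsm 4 M (Sp 1 × {x : M // p x = a}) {x | p x = a ∨ q x = b}
    {w | w.1 = a ∨ w.2 = ⟨x₁, hx₁⟩} c' c (fun x => (p x, π x)) (by norm_num)
    ⟨x₁, Or.inl hx₁⟩ hc'i hc'l (by
      rw [hc'r]
      ext x
      simp only [mem_ofPred_eq, mem_compl_iff, not_or]) hci hcl hcr hgl hgi hgr
  refine ⟨{x : M // p x = a}, inferInstance, cs, hmf, G, x₀,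
    fun x hx => hPb M G x (hG x hx), fun y₀ => ?_⟩
  refine hMov 3 {x : M // p x = a} cY ⟨x₁, hx₁⟩ (by norm_num) hcYi hcYl ?_ y₀
  rw [hcYr']
  ext y
  exact not_congr (hy₁ y)

end Pool.Agent.N550.PS.Fin'
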