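import Pool.Agent.N550.PS.Stm
import Pool.Agent.N550.KH.Reg

/-!
# Project PS: generic fibres
-/

set_option autoImplicit false

open Set Filter Topology Metric Function MeasureTheory
open scoped Manifold ContDiff ENNReal NNReal

noncomputable section

namespace Pool.Agent.N550.PS.Gen

open Pool.Agent.Y522 Pool.Agent.N550.SH Pool.Agent.N550.KH

/-- The first projection of a null set is null. -/
theorem fst_null {k l : ℕ} {M : Type} {B : Set M} (p : M → Sp k) (q : M → Sp l)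
    (hB : Measure.hausdorffMeasure 1 ((fun x => (p x, q x)) '' B) = 0) :
    Measure.hausdorffMeasure 1 (p '' B) = 0 := by
  have hl : LipschitzWith 1 (Prod.fst : Sp k × Sp l → Sp k) := LipschitzWith.prod_fst
  have h2 := hl.hausdorffMeasure_image_le (d := 1) zero_le_one ((fun x => (p x, q x)) '' B)
  rw [hB, mul_zero, image_image] at h2
  exact le_antisymm h2 bot_le

/-- The second projection of a null set is null. -/
theorem snd_null {k l : ℕ} {M : Type} {B : Set M} (p : M → Sp k) (q : M → Sp l)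
    (hB : Measure.hausdorffMeasure 1 ((fun x => (p x, q x)) '' B) = 0) :
    Measure.hausdorffMeasure 1 (q '' B) = 0 := by
  have hl : LipschitzWith 1 (Prod.snd : Sp k × Sp l → Sp l) := LipschitzWith.prod_snd
  have h2 := hl.hausdorffMeasure_image_le (d := 1) zero_le_one ((fun x => (p x, q x)) '' B)
  rw [hB, mul_zero, image_image] at h2
  exact le_antisymm h2 bot_le

/-- Regular values are dense. -/
theorem sub_reg {l k n : ℕ} {M : Type} [TopologicalSpace M] [SecondCountableTopology M]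
    [ChartedSpace (E n) M] [IsManifold (𝓡 n) ∞ M] (hn : n = l + k) (hk : 0 < k) (p : M → Sp k)
    (hpc : Continuous p) (G : Set M) (hG : IsOpen G)
    (hp : ∀ x ∈ G, ContMDiffAt (𝓡 n) (𝓡 k) ∞ p x)
    (hnull : Measure.hausdorffMeasure 1 (p '' Gᶜ) = 0) (O : Set (Sp k)) (hO : IsOpen O)
    (hne : O.Nonempty) :
    ∃ a ∈ O, ∀ x, p x = a → x ∈ G ∧ Surjective (mfderiv (𝓡 n) (𝓡 k) p x) := by
  subst hn
  obtain ⟨a₀, ha₀⟩ := hne
  set a' : Sp k := -a₀ with ha'
  have hne' : a₀ ≠ a' := ne_neg_of_mem_unit_sphere ℝ a₀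
  set U : TopologicalSpace.Opens M := ⟨{x | p x ≠ a'}, isOpen_ne_fun hpc continuous_const⟩ with hU
  have hUx : ∀ x : U, p x.1 ≠ a' := fun x => x.2
  obtain ⟨g, hg, hg'⟩ := ste_amb k a'
  set S : Set (E (k + 1)) := Subtype.val '' ((p '' Gᶜ) ∩ {a'}ᶜ) with hS
  have h1 : Measure.hausdorffMeasure 1 S = 0 := by
    rw [hS, isometry_subtype_coe.hausdorffMeasure_image (Or.inl zero_le_one)]
    exact measure_mono_null inter_subset_left hnull
  have h2 : Measure.hausdorffMeasure 1 (g '' S) = 0 := by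
    refine null_image h1 _ ?_
    rintro _ ⟨u, ⟨-, hu⟩, rfl⟩
    exact (hg' u hu).of_le (by simp)
  have h3 : ∀ j : Fin k, volume ((fun x : U => (ste k a' (p x.1) : E k) j) ''
      (Subtype.val ⁻¹' G : Set U)ᶜ) = 0 := by
    intro j
    have hl : LipschitzWith 1 (fun u : E k => u j) := by
      refine LipschitzWith.of_dist_le_mul fun u v => ?_
      rw [NNReal.coe_one, one_mul, Real.dist_eq, dist_eq_norm]
      exact PiLp.norm_apply_le (u - v) j
    have h4 := hl.hausdorffMeasure_image_le (d := 1) zero_le_one (g '' S)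
    rw [h2, mul_zero, hausdorffMeasure_real] at h4
    refine measure_mono_null ?_ (le_antisymm h4 bot_le)
    rintro _ ⟨x, hx, rfl⟩
    exact ⟨_, ⟨_, ⟨p x.1, ⟨⟨x.1, hx, rfl⟩, hUx x⟩, rfl⟩, rfl⟩, by rw [hg]⟩
  have h5 : ∀ x ∈ (Subtype.val ⁻¹' G : Set U),
      ContMDiffAt (𝓡 (l + k)) (𝓡 k) ∞ (fun x : U => ste k a' (p x.1)) x := by
    intro x hx
    have h6 : ContMDiffAt (𝓡 (l + k)) (𝓡 k) ∞ (fun x => ste k a' (p x)) x.1 :=
      ContMDiffAt.comp (g := ste k a') x.1 (ste_smooth k a' _ (hUx x)) (hp _ hx)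
    exact contMDiffAt_subtype_iff.2 h6
  have h6 : IsOpen (ste k a' '' (O ∩ {a'}ᶜ)) := by
    refine (ste k a').isOpen_image_of_subset_source (hO.inter isOpen_compl_singleton) ?_
    rw [ste_source]
    exact inter_subset_right
  obtain ⟨z, ⟨a, ⟨haO, haa⟩, rfl⟩, hz⟩ := Pool.Agent.N550.KH.Reg.main l k U
    (fun x : U => ste k a' (p x.1)) (Subtype.val ⁻¹' G) hk (hG.preimage continuous_subtype_val)
    h5 h3 _ h6 ⟨_, a₀, ⟨ha₀, hne'⟩, rfl⟩
  refine ⟨a, haO, fun x hx => ?_⟩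
  have hxU : p x ≠ a' := by
    rw [hx]
    exact haa
  obtain ⟨hxG, hsur⟩ := hz ⟨x, hxU⟩ (by
    show ste k a' (p x) = _
    rw [hx])
  have hxG' : x ∈ G := hxG
  refine ⟨hxG', ?_⟩
  have e1 : mfderiv (𝓡 (l + k)) (𝓡 k) (fun x : U => ste k a' (p x.1)) ⟨x, hxU⟩ =
      (mfderiv (𝓡 (l + k)) (𝓡 k) (fun x : M => ste k a' (p x)) x).comp
        (mfderiv (𝓡 (l + k)) (𝓡 (l + k)) (Subtype.val : U → M) ⟨x, hxU⟩) := by
    refine mfderiv_comp (I' := 𝓡 (l + k)) (g := fun x : M => ste k a' (p x)) _ ?_ ?_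
    · exact (ContMDiffAt.comp (g := ste k a') x (ste_smooth k a' _ hxU)
        (hp _ hxG')).mdifferentiableAt (by simp)
    · exact (ld_opens U ⟨x, hxU⟩).mdifferentiableAt
  have e2 : mfderiv (𝓡 (l + k)) (𝓡 k) (fun x : M => ste k a' (p x)) x =
      (mfderiv (𝓡 k) (𝓡 k) (ste k a') (p x)).comp (mfderiv (𝓡 (l + k)) (𝓡 k) p x) :=
    mfderiv_comp x ((ste_smooth k a' _ hxU).mdifferentiableAt (by simp))
      ((hp _ hxG').mdifferentiableAt (by simp))
  have s1 : Surjective (mfderiv (𝓡 (l + k)) (𝓡 k) (fun x : M => ste k a' (p x)) x) := by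
    intro w
    obtain ⟨v, hv⟩ := hsur w
    rw [e1] at hv
    exact ⟨_, hv⟩
  have s2 : Surjective (mfderiv (𝓡 k) (𝓡 k) (ste k a') (p x)) := by
    intro w
    obtain ⟨v, hv⟩ := s1 w
    rw [e2] at hv
    exact ⟨_, hv⟩
  have s3 : Injective (mfderiv (𝓡 k) (𝓡 k) (ste k a') (p x)) := by
    set D : E k →L[ℝ] E k := mfderiv (𝓡 k) (𝓡 k) (ste k a') (p x) with hD
    exact (LinearMap.injective_iff_surjective (f := (D : E k →ₗ[ℝ] E k))).2 s2
  intro w
  obtain ⟨v, hv⟩ := s1 (mfderiv (𝓡 k) (𝓡 k) (ste k a') (p x) w)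
  rw [e2] at hv
  exact ⟨v, s3 hv⟩

/-- Generic fibres. -/
theorem main : S_GEN := by
  intro k l n M _ _ _ p q hn hk hl h hB
  set hh : M ≃ₜ Sp k × Sp l := h.homeomorph with hhd
  have hhx : ∀ x, hh x = (p x, q x) := fun x => rfl
  have : SecondCountableTopology M := hh.secondCountableTopology
  have hpc : Continuous p := continuous_fst.comp h.continuous
  have hqc : Continuous q := continuous_snd.comp h.continuous
  set G : Set M := {x | NearS (n := n) p x ∧ NearS (n := n) q x} with hGd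
  have hG : IsOpen G := by
    have h1 : G = {x | ∀ᶠ y in 𝓝 x, ContMDiffAt (𝓡 n) (𝓡 k) ∞ p y ∧
        ContMDiffAt (𝓡 n) (𝓡 l) ∞ q y} := by
      ext x
      exact Filter.eventually_and.symm
    rw [h1]
    exact isOpen_setOfPred_eventually_nhds
  have hB' : Measure.hausdorffMeasure 1 ((fun x => (p x, q x)) '' Gᶜ) = 0 := hB
  have hGp : ∀ x ∈ G, ContMDiffAt (𝓡 n) (𝓡 k) ∞ p x := fun x hx => hx.1.self_of_nhds
  have hGq : ∀ x ∈ G, ContMDiffAt (𝓡 n) (𝓡 l) ∞ q x := fun x hx => hx.2.self_of_nhds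
  have subp := sub_reg (l := l) (k := k) (n := n) (by omega) hk p hpc G hG hGp
    (fst_null p q hB')
  have subq := sub_reg (l := k) (k := l) (n := n) (by omega) hl q hqc G hG hGq
    (snd_null p q hB')
  have nek : Nonempty (Sp k) := by
    have h1 : Nontrivial (E (k + 1)) := inferInstance
    exact (NormedSpace.sphere_nonempty.2 zero_le_one).to_subtype
  have nel : Nonempty (Sp l) := by
    have h1 : Nontrivial (E (l + 1)) := inferInstance
    exact (NormedSpace.sphere_nonempty.2 zero_le_one).to_subtype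
  -- a good point
  obtain ⟨a₀, -, ha₀'⟩ := subp univ isOpen_univ univ_nonempty
  obtain ⟨b₀⟩ := nel
  obtain ⟨x₀, hx₀⟩ := h.surjective (a₀, b₀)
  have hpx₀ : p x₀ = a₀ := congrArg Prod.fst hx₀
  have hqx₀ : q x₀ = b₀ := congrArg Prod.snd hx₀
  set W : Set M := G ∩ {x | p x ≠ -a₀} ∩ {x | q x ≠ -b₀} with hW
  have hWo : IsOpen W := by
    refine (hG.inter ?_).inter ?_
    · exact isOpen_ne_fun hpc continuous_const
    · exact isOpen_ne_fun hqc continuous_const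
  have hx₀W : x₀ ∈ W := by
    refine ⟨⟨(ha₀' x₀ hpx₀).1, ?_⟩, ?_⟩
    · show p x₀ ≠ -a₀
      rw [hpx₀]
      exact ne_neg_of_mem_unit_sphere ℝ a₀
    · show q x₀ ≠ -b₀
      rw [hqx₀]
      exact ne_neg_of_mem_unit_sphere ℝ b₀
  set F := Ph hn h (-a₀) (-b₀) with hF
  have hFs : F.source = {x | p x ≠ -a₀ ∧ q x ≠ -b₀} := Ph_source _ h _ _
  have hWs : W ⊆ F.source := by
    rw [hFs]
    exact fun x hx => ⟨hx.1.2, hx.2⟩
  obtain ⟨x₁, hx₁, hld⟩ := exists_ld (n := n) F W hWo x₀ hx₀W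
    (fun x hx => Ph_smooth _ h _ _ (hGp x hx.1.1) (hGq x hx.1.1) hx.1.2 hx.2)
    (fun V hV hVo => F.isOpen_image_of_subset_source hVo (hV.trans hWs))
  obtain ⟨V, hV, hVo, hx₁V⟩ := _root_.mem_nhds_iff.1
    (Filter.inter_mem (hWo.mem_nhds hx₁) hld.eventually)
  have hop : IsOpen (hh '' V) := hh.isOpenMap _ hVo
  have hmem : (p x₁, q x₁) ∈ hh '' V := ⟨x₁, hx₁V, rfl⟩
  obtain ⟨P, hP, Q, hQ, hPQ⟩ := mem_nhds_prod_iff.1 (hop.mem_nhds hmem)
  obtain ⟨P', hP', hPo, hpP⟩ := _root_.mem_nhds_iff.1 hP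
  obtain ⟨Q', hQ', hQo, hqQ⟩ := _root_.mem_nhds_iff.1 hQ
  obtain ⟨a, ha, ha'⟩ := subp P' hPo ⟨_, hpP⟩
  obtain ⟨b, hb, hb'⟩ := subq Q' hQo ⟨_, hqQ⟩
  have key : ∀ x, p x ∈ P' → q x ∈ Q' → x ∈ V := by
    intro x hxp hxq
    obtain ⟨y, hy, hyx⟩ := hPQ (mk_mem_prod (hP' hxp) (hQ' hxq))
    have : y = x := hh.injective (by rw [hyx, hhx])
    rwa [← this]
  refine ⟨a, b, P', Q', hPo, hQo, ha, hb,
    fun x hx => ⟨(ha' x hx).1.1, (ha' x hx).1.2, (ha' x hx).2⟩,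
    fun x hx => ⟨(hb' x hx).1.1, (hb' x hx).1.2, (hb' x hx).2⟩, ?_⟩
  intro x hxa hxb
  have hxV : x ∈ V := key x hxa hxb
  have hxW : x ∈ W := (hV hxV).1
  have hxld : LD n F x := (hV hxV).2
  refine ⟨hxW.1.1.1, hxW.1.1.2, fun v hpv hqv => ?_⟩
  exact Ph_inj hn h (-a₀) (-b₀) (hGp x hxW.1.1) (hGq x hxW.1.1) hxW.1.2
    hxW.2 hxld v hpv hqv

end Pool.Agent.N550.PS.Gen
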