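import Pool.Agent.N550.PS.Stm
import Pool.Agent.N550.KH.Shift
import Pool.Agent.N550.KH.Supp
import Pool.Agent.N550.KH.End

/-!
# Project PS: a manifold which is a cell and a point is a cell and any other point
-/

set_option autoImplicit false
set_option linter.unusedSectionVars false

open Set Filter Topology Metric Function MeasureTheory
open scoped Manifold ContDiff

noncomputable section

namespace Pool.Agent.N550.PS.Mov

open Pool.Agent.Y522 Pool.Agent.N550.SH Pool.Agent.N550.KH Pool.Agent.N550.PS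
open Pool.Agent.N550.KH.End

/-! ### Diffeomorphisms with compact support -/

theorem push (m : ℕ) (z w : E m) : ∃ κ : E m → E m, IsDf m κ ∧
    (∃ R : ℝ, ∀ x, R ≤ ‖x‖ → κ x = x) ∧ κ z = w := by
  let f : ContDiffBump (0 : E m) := ⟨1, 2, by norm_num, by norm_num⟩
  have hn : (∞ : WithTop ℕ∞) ≠ 0 := by simp
  have hf : ContDiff ℝ ∞ f := f.contDiff
  obtain ⟨B, hB⟩ := (hf.continuous_fderiv hn).bounded_above_of_compact_support
    (f.hasCompactSupport.fderiv (𝕜 := ℝ))
  have hB0 : 0 ≤ B := (norm_nonneg _).trans (hB 0)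
  set L : ℝ := 2 * (B + 1) * (‖w - z‖ + 1) with hL
  have hL0 : 0 < L := by positivity
  let χ : E m → ℝ := fun x => f (L⁻¹ • (x - z))
  have hlin : ∀ x, HasFDerivAt (fun x : E m => L⁻¹ • (x - z))
      (L⁻¹ • ContinuousLinearMap.id ℝ (E m)) x := fun x =>
    ((hasFDerivAt_id x).sub_const z).const_smul L⁻¹
  have hχ : ContDiff ℝ ∞ χ := by
    have h1 : ContDiff ℝ ∞ (fun x : E m => L⁻¹ • (x - z)) :=
      (contDiff_id.sub contDiff_const).const_smul L⁻¹
    exact hf.comp h1
  have hχn : ∀ x, ‖fderiv ℝ χ x‖ * ‖w - z‖ ≤ 1 / 2 := by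
    intro x
    have h0 : HasFDerivAt (f : E m → ℝ) (fderiv ℝ (f : E m → ℝ) (L⁻¹ • (x - z)))
        (L⁻¹ • (x - z)) := ((hf.differentiable hn) (L⁻¹ • (x - z))).hasFDerivAt
    have h01 : HasFDerivAt ((f : E m → ℝ) ∘ (fun x : E m => L⁻¹ • (x - z)))
        ((fderiv ℝ (f : E m → ℝ) (L⁻¹ • (x - z))).comp
          (L⁻¹ • ContinuousLinearMap.id ℝ (E m))) x := HasFDerivAt.comp x h0 (hlin x)
    have h1 : HasFDerivAt χ ((fderiv ℝ (f : E m → ℝ) (L⁻¹ • (x - z))).comp
        (L⁻¹ • ContinuousLinearMap.id ℝ (E m))) x := h01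
    have h3 : ‖fderiv ℝ χ x‖ ≤ B * L⁻¹ := by
      rw [h1.fderiv]
      refine (ContinuousLinearMap.opNorm_comp_le _ _).trans ?_
      refine mul_le_mul (hB _) ?_ (norm_nonneg _) hB0
      rw [norm_smul, Real.norm_of_nonneg (by positivity)]
      have := ContinuousLinearMap.norm_id_le (𝕜 := ℝ) (E := E m)
      have h5 : 0 ≤ L⁻¹ := by positivity
      nlinarith
    calc ‖fderiv ℝ χ x‖ * ‖w - z‖ ≤ B * L⁻¹ * ‖w - z‖ :=
          mul_le_mul_of_nonneg_right h3 (norm_nonneg _)
      _ = (B * ‖w - z‖) / L := by field_simp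
      _ ≤ 1 / 2 := by
        rw [div_le_div_iff₀ hL0 (by norm_num), hL]
        nlinarith [norm_nonneg (w - z), mul_nonneg hB0 (norm_nonneg (w - z))]
  refine ⟨fun x => x + χ x • (w - z), Pool.Agent.N550.KH.Shift.s_pert m χ (w - z) (1 / 2) hχ
    (by norm_num) hχn, ⟨2 * L + ‖z‖, fun x hx => ?_⟩, ?_⟩
  · have h1 : f (L⁻¹ • (x - z)) = 0 := by
      refine f.zero_of_le_dist ?_
      rw [dist_zero_right, norm_smul, Real.norm_of_nonneg (by positivity)]
      show 2 ≤ L⁻¹ * ‖x - z‖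
      rw [le_inv_mul_iff₀ hL0]
      have := norm_sub_norm_le x z
      linarith
    show x + f (L⁻¹ • (x - z)) • (w - z) = x
    rw [h1, zero_smul, add_zero]
  · have h1 : f (L⁻¹ • (z - z)) = 1 := by
      refine f.one_of_mem_closedBall ?_
      rw [sub_self, smul_zero]
      exact mem_closedBall_self (by norm_num)
    show z + f (L⁻¹ • (z - z)) • (w - z) = w
    rw [h1, one_smul]
    abel

/-! ### The sphere -/

theorem ste_chart (m : ℕ) (b : Sp m) : ste m b = chartAt (E m) (-b) := by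
  have := Fact.mk (@finrank_euclideanSpace_fin ℝ _ (m + 1))
  have h : chartAt (E m) (-b) = stereographic' m (-(-b)) := rfl
  rw [h, neg_neg]
  rfl

theorem ste_symm_LD (m : ℕ) (b : Sp m) (z : E m) : LD m (ste m b).symm z := by
  rw [ste_chart]
  refine ld_chart_symm' (-b) z ?_
  rw [← ste_chart, ste_target]
  trivial

section

variable {m : ℕ} {Y : Type} [TopologicalSpace Y] [CompactSpace Y] [T2Space Y]
  [ChartedSpace (E m) Y] [IsManifold (𝓡 m) ∞ Y]

open Classical in
theorem first (b : Sp m) (cY : E m → Y) (y₁ : Y) (hi : Injective cY) (hd : ∀ z, LD m cY z)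
    (hr : range cY = {y₁}ᶜ) : ∃ κ : Y ≃ₜ Sp m, ∀ y, y ≠ y₁ → LD m κ y := by
  obtain ⟨g, hg⟩ : ∃ g : Y → E m, ∀ z, g (cY z) = z :=
    ⟨invFun cY, fun z => leftInverse_invFun hi z⟩
  set S := ste m b with hS
  have hSs : S.source = {b}ᶜ := ste_source m b
  have hSt : S.target = univ := ste_target m b
  set κ : Y → Sp m := fun y => if y = y₁ then b else S.symm (g y) with hκ
  have hne : ∀ z, cY z ≠ y₁ := fun z h => by
    have : cY z ∈ range cY := mem_range_self z
    rw [hr] at this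
    exact this h
  have hκ1 : κ y₁ = b := by rw [hκ]; exact if_pos rfl
  have hκ2 : ∀ z, κ (cY z) = S.symm z := fun z => by
    show (if cY z = y₁ then b else S.symm (g (cY z))) = S.symm z
    rw [if_neg (hne z), hg]
  have hcase : ∀ y, y ≠ y₁ → ∃ z, cY z = y := fun y hy => by
    have : y ∈ range cY := by rw [hr]; exact hy
    exact this
  have hSb : ∀ z, S.symm z ≠ b := fun z h => by
    have h1 : S.symm z ∈ S.source := S.map_target (by rw [hSt]; trivial)
    rw [hSs] at h1
    exact h1 h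
  have hSr : ∀ z, S (S.symm z) = z := fun z => S.right_inv (by rw [hSt]; trivial)
  have hinj : Injective κ := by
    intro x y hxy
    by_cases hx : x = y₁
    · by_cases hy : y = y₁
      · rw [hx, hy]
      · obtain ⟨w, rfl⟩ := hcase y hy
        rw [hx, hκ1, hκ2] at hxy
        exact absurd hxy.symm (hSb w)
    · obtain ⟨z, rfl⟩ := hcase x hx
      by_cases hy : y = y₁
      · rw [hy, hκ1, hκ2] at hxy
        exact absurd hxy (hSb z)
      · obtain ⟨w, rfl⟩ := hcase y hy
        rw [hκ2, hκ2] at hxy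
        have := congrArg S hxy
        rw [hSr, hSr] at this
        rw [this]
  have hsur : Surjective κ := by
    intro u
    by_cases hu : u = b
    · exact ⟨y₁, by rw [hκ1, hu]⟩
    · refine ⟨cY (S u), ?_⟩
      rw [hκ2]
      exact S.left_inv (by rw [hSs]; exact hu)
  have hLD : ∀ y, y ≠ y₁ → LD m κ y := by
    intro y hy
    obtain ⟨z, rfl⟩ := hcase y hy
    have h1 : LD m g (cY z) :=
      LD.inverse isOpen_univ (fun x _ => hd x) (fun x _ => hg x) (mem_univ z)
    have h2 : LD m (fun y => S.symm (g y)) (cY z) :=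
      LD.comp_fun (g := S.symm) (f := g) (ste_symm_LD m b _) h1
    refine h2.congr ?_
    have h3 : {y₁}ᶜ ∈ 𝓝 (cY z) := isOpen_compl_singleton.mem_nhds (hne z)
    filter_upwards [h3] with y hy
    exact if_neg hy
  have hcY : Continuous cY := continuous_iff_continuousAt.2 fun z => (hd z).continuousAt
  have hcont : Continuous κ := by
    rw [continuous_iff_continuousAt]
    intro y
    by_cases hy : y = y₁
    · subst hy
      intro V hV
      rw [hκ1] at hV
      obtain ⟨V', hV'V, hV'o, hbV'⟩ := _root_.mem_nhds_iff.1 hV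
      have hK0 : IsCompact V'ᶜ := hV'o.isClosed_compl.isCompact
      have hsub : V'ᶜ ⊆ S.source := by
        rw [hSs]
        intro u hu hub
        rw [mem_singleton_iff] at hub
        subst hub
        exact hu hbV'
      have hK : IsCompact (S '' V'ᶜ) := hK0.image_of_continuousOn (S.continuousOn.mono hsub)
      have hK2 : IsCompact (cY '' (S '' V'ᶜ)) := hK.image hcY
      have hopen : IsOpen (cY '' (S '' V'ᶜ))ᶜ := hK2.isClosed.isOpen_compl
      have hmem : y ∈ (cY '' (S '' V'ᶜ))ᶜ := by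
        rintro ⟨z, _, hz⟩
        exact hne z hz
      refine mem_map.2 (mem_of_superset (hopen.mem_nhds hmem) ?_)
      intro x hx
      show κ x ∈ V
      apply hV'V
      by_cases hxy : x = y
      · rw [hxy, hκ1]
        exact hbV'
      · obtain ⟨z, rfl⟩ := hcase x hxy
        rw [hκ2]
        by_contra hcon
        exact hx ⟨z, ⟨S.symm z, hcon, hSr z⟩, rfl⟩
    · exact (hLD y hy).continuousAt
  refine ⟨Continuous.homeoOfEquivCompactToT2 (f := Equiv.ofBijective κ ⟨hinj, hsur⟩) hcont,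
    fun y hy => ?_⟩
  exact hLD y hy

/-- an open parametrization at a given point -/
theorem param (y : Y) : ∃ h : E m → Y, Injective h ∧ (∀ z, LD m h z) ∧ h 0 = y := by
  set e := chartAt (E m) y with he
  obtain ⟨ρ, hρ, hb⟩ := Metric.isOpen_iff.1 e.open_target (e y)
    (e.map_source (mem_chart_source (E m) y))
  have hmem : ∀ z : E m, e y + jb ρ z ∈ e.target := fun z => hb (by
    rw [mem_ball, dist_eq_norm, add_sub_cancel_left]
    exact jb_norm ρ hρ z)
  refine ⟨fun z => e.symm (e y + jb ρ z), ?_, ?_, ?_⟩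
  · intro x z hxz
    have h1 := congrArg e hxz
    simp only at h1
    rw [e.right_inv (hmem x), e.right_inv (hmem z)] at h1
    exact jb_inj ρ hρ (add_left_cancel h1)
  · intro z
    have h1 : LD m (fun z : E m => e y + z) (jb ρ z) := by
      refine LD_of_contDiffAt (Eventually.of_forall fun x => ?_) (ContinuousLinearEquiv.refl ℝ (E m))
        ?_
      · exact contDiffAt_const.add contDiffAt_id
      · exact (hasFDerivAt_id (jb ρ z)).const_add (e y)
    have h2 : LD m (fun z : E m => e y + jb ρ z) z := LD.comp_fun h1 (jb_LD ρ hρ z)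
    exact LD.comp_fun (g := e.symm) (ld_chart_symm' y _ (hmem z)) h2
  · show e.symm (e y + jb ρ 0) = y
    rw [jb_zero, add_zero]
    exact e.left_inv (mem_chart_source (E m) y)

theorem isDf_id : IsDf m (fun y : Y => y) := ⟨bijective_id, fun y => LD.id y⟩

theorem isDf_comp' {f g : Y → Y} (hf : IsDf m f) (hg : IsDf m g) : IsDf m (fun y => f (g y)) :=
  ⟨hf.1.comp hg.1, fun y => LD.comp_fun (hf.2 (g y)) (hg.2 y)⟩

/-- a diffeomorphism which moves `y₂` to `y₁` -/
theorem move (cY : E m → Y) (y₁ y₂ : Y) (hm : 0 < m) (hi : Injective cY)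
    (hd : ∀ z, LD m cY z) (hr : range cY = {y₁}ᶜ) : ∃ D : Y → Y, IsDf m D ∧ D y₂ = y₁ := by
  by_cases hy : y₂ = y₁
  · exact ⟨fun y => y, isDf_id, hy⟩
  have h2 : y₂ ∈ range cY := by rw [hr]; exact hy
  obtain ⟨z₂, hz₂⟩ := h2
  obtain ⟨h, hhi, hhd, hh0⟩ := param (m := m) y₁
  obtain ⟨w, hw⟩ : ∃ w : E m, w ≠ 0 := by
    have : Nonempty (Fin m) := ⟨⟨0, hm⟩⟩
    exact exists_ne 0
  have h3 : h w ∈ range cY := by
    rw [hr]
    intro h4
    rw [mem_singleton_iff, ← hh0] at h4
    exact hw (hhi h4)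
  obtain ⟨z₃, hz₃⟩ := h3
  obtain ⟨κ, hκ, hκR, hκz⟩ := push m z₂ z₃
  obtain ⟨κ', hκ', hκR', hκz'⟩ := push m w 0
  obtain ⟨D1, hD1, hD1c, _⟩ := Pool.Agent.N550.KH.Supp.main m Y cY hi hd κ hκ hκR
  obtain ⟨D2, hD2, hD2c, _⟩ := Pool.Agent.N550.KH.Supp.main m Y h hhi hhd κ' hκ' hκR'
  refine ⟨fun y => D2 (D1 y), isDf_comp' hD2 hD1, ?_⟩
  show D2 (D1 y₂) = y₁
  rw [← hz₂, hD1c, hκz, hz₃, hD2c, hκz', hh0]

end

theorem main : S_MOV := by
  intro m Y _ _ _ _ _ cY y₁ hm hi hd hr y₂
  obtain ⟨b⟩ : Nonempty (Sp m) := by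
    have : Nonempty (Fin (m + 1)) := ⟨0⟩
    exact (NormedSpace.sphere_nonempty.2 zero_le_one).to_subtype
  obtain ⟨κ₁, hκ₁⟩ := first b cY y₁ hi hd hr
  obtain ⟨D, hD, hD2⟩ := move cY y₁ y₂ hm hi hd hr
  have hDc : Continuous D := continuous_iff_continuousAt.2 fun y => (hD.2 y).continuousAt
  set DH : Y ≃ₜ Y := Continuous.homeoOfEquivCompactToT2 (f := Equiv.ofBijective D hD.1) hDc
    with hDH
  refine ⟨DH.trans κ₁, fun y hy => ?_⟩
  have h1 : D y ≠ y₁ := fun h => hy (hD.1.1 (by rw [h, hD2]))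
  exact LD.comp_fun (g := κ₁) (f := D) (hκ₁ _ h1) (hD.2 y)

end Pool.Agent.N550.PS.Mov
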