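import Pool.Agent.N550.PS.Stm
import Pool.Agent.N550.KH.Ext

/-!
# PS/PI: the second projection
-/

set_option autoImplicit false

open Set Filter Topology Metric Function MeasureTheory
open scoped Manifold ContDiff

noncomputable section

namespace Pool.Agent.N550.PS.Pi

open Pool.Agent.Y522 Pool.Agent.N550.SH Pool.Agent.N550.KH Pool.Agent.N550.PS

/-- the inverse function theorem on manifolds -/
theorem ift {n : ℕ} {M N : Type} [TopologicalSpace M] [ChartedSpace (E n) M]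
    [IsManifold (𝓡 n) ∞ M] [TopologicalSpace N] [ChartedSpace (E n) N] [IsManifold (𝓡 n) ∞ N]
    (f : M → N) (x : M) (hf : ∀ᶠ y in 𝓝 x, ContMDiffAt (𝓡 n) (𝓡 n) ∞ f y)
    (hd : ∀ v : TangentSpace (𝓡 n) x, mfderiv (𝓡 n) (𝓡 n) f x v = 0 → v = 0) : LD n f x := by
  set e := chartAt (E n) x with he
  set e' := chartAt (E n) (f x) with he'
  have hxs : x ∈ e.source := mem_chart_source _ x
  have hfs : f x ∈ e'.source := mem_chart_source _ (f x)
  have hz0 : e x ∈ e.target := e.map_source hxs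
  have hfc : ContinuousAt f x := hf.self_of_nhds.continuousAt
  have hT : Tendsto e.symm (𝓝 (e x)) (𝓝 x) := by
    have h1 := e.symm.continuousAt (x := e x) hz0
    unfold ContinuousAt at h1
    rwa [e.left_inv hxs] at h1
  have h1 : ∀ᶠ y in 𝓝 x, f y ∈ e'.source := hfc.eventually (e'.open_source.mem_nhds hfs)
  have hF : ∀ᶠ z in 𝓝 (e x), ContDiffAt ℝ ∞ (fun z => e' (f (e.symm z))) z := by
    filter_upwards [hT.eventually hf, hT.eventually h1, e.open_target.mem_nhds hz0] with z a1 a2 a3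
    refine contMDiffAt_iff_contDiffAt.1 ?_
    have b1 : ContMDiffAt (𝓡 n) (𝓡 n) ∞ (fun z => f (e.symm z)) z :=
      ContMDiffAt.comp (g := f) z a1 (ld_chart_symm' x z a3).contMDiffAt
    exact ContMDiffAt.comp (g := e') z (ld_chart' (f x) _ a2).contMDiffAt b1
  have hg : LD n (fun z => e' (f (e.symm z))) (e x) := by
    refine Pool.Agent.N550.SH.Moeb.LD_of_injective hF
      ((hF.self_of_nhds.differentiableAt (by simp)).hasFDerivAt) ?_
    have c1 : MDifferentiableAt (𝓡 n) (𝓡 n) e.symm (e x) :=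
      (ld_chart_symm' x (e x) hz0).mdifferentiableAt
    have hex : e.symm (e x) = x := e.left_inv hxs
    have c2 : MDifferentiableAt (𝓡 n) (𝓡 n) f (e.symm (e x)) := by
      rw [hex]
      exact hf.self_of_nhds.mdifferentiableAt (by simp)
    have c3 : MDifferentiableAt (𝓡 n) (𝓡 n) e' (f (e.symm (e x))) := by
      rw [hex]
      exact (ld_chart' (f x) _ hfs).mdifferentiableAt
    have d1 : mfderiv (𝓡 n) (𝓡 n) (fun z => e' (f (e.symm z))) (e x) =
        (mfderiv (𝓡 n) (𝓡 n) e' (f (e.symm (e x)))).comp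
          (mfderiv (𝓡 n) (𝓡 n) (fun z => f (e.symm z)) (e x)) :=
      mfderiv_comp (e x) c3 (MDifferentiableAt.comp (e x) c2 c1)
    have d2 : mfderiv (𝓡 n) (𝓡 n) (fun z => f (e.symm z)) (e x) =
        (mfderiv (𝓡 n) (𝓡 n) f (e.symm (e x))).comp
          (mfderiv (𝓡 n) (𝓡 n) e.symm (e x)) :=
      mfderiv_comp (e x) c2 c1
    have hd' : Injective (mfderiv (𝓡 n) (𝓡 n) f (e.symm (e x))) := by
      rw [hex]
      exact (injective_iff_map_eq_zero _).2 hd
    have k1 : Injective (mfderiv (𝓡 n) (𝓡 n) e.symm (e x)) :=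
      (ld_chart_symm' x (e x) hz0).mfderiv_injective
    have k2 : Injective (mfderiv (𝓡 n) (𝓡 n) e' (f (e.symm (e x)))) := by
      rw [hex]
      exact (ld_chart' (f x) _ hfs).mfderiv_injective
    have k3 : Injective (mfderiv (𝓡 n) (𝓡 n) (fun z => e' (f (e.symm z))) (e x)) := by
      rw [d1, d2]
      exact k2.comp (hd'.comp k1)
    rw [mfderiv_eq_fderiv] at k3
    exact k3
  have hg2 : LD n (fun y => e' (f (e.symm (e y)))) x :=
    LD.comp_fun (g := fun z => e' (f (e.symm z))) hg (ld_chart' x x hxs)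
  have hg3 : LD n e'.symm (e' (f (e.symm (e x)))) := by
    rw [e.left_inv hxs]
    exact ld_chart_symm' (f x) _ (e'.map_source hfs)
  refine (LD.comp_fun (f := fun y => e' (f (e.symm (e y)))) (g := e'.symm) hg3 hg2).congr ?_
  filter_upwards [e.open_source.mem_nhds hxs, h1] with y b1 b2
  rw [e.left_inv b1, e'.left_inv b2]

theorem main : S_PI := by
  intro m M Y _ _ _ _ _ _ _ _ _ _ j p q a b cY hm hH hnear hTr hji hjs hjd hrange hker hci hcl hcr
  have hinf : (∞ : WithTop ℕ∞) ≠ 0 := by simp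
  have hpc : Continuous p := continuous_fst.comp hH.continuous
  have hqc : Continuous q := continuous_snd.comp hH.continuous
  have hjc : Continuous j := hjs.continuous
  have hpj : ∀ y, p (j y) = a := by
    intro y
    have h1 : j y ∈ range j := ⟨y, rfl⟩
    rw [hrange] at h1
    exact h1
  -- the homeomorphism `q ∘ j`
  have hqjinj : Injective (fun y => q (j y)) := by
    intro y z h
    apply hji
    apply hH.injective
    exact Prod.ext ((hpj y).trans (hpj z).symm) h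
  have hqjsurj : Surjective (fun y => q (j y)) := by
    intro u
    obtain ⟨x, hx⟩ := hH.surjective (a, u)
    have hpx : p x = a := congrArg Prod.fst hx
    have hqx : q x = u := congrArg Prod.snd hx
    have h1 : x ∈ range j := by rw [hrange]; exact hpx
    obtain ⟨y, rfl⟩ := h1
    exact ⟨y, hqx⟩
  have hqjc : Continuous (fun y => q (j y)) := hqc.comp hjc
  let H : Y ≃ₜ Sp m := Continuous.homeoOfEquivCompactToT2
    (f := Equiv.ofBijective (fun y => q (j y)) ⟨hqjinj, hqjsurj⟩) hqjc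
  have hHa : ∀ y, H y = q (j y) := fun y => rfl
  obtain ⟨φ, hφ⟩ : ∃ φ : Sp m → Y, φ = H.symm := ⟨_, rfl⟩
  have hφc : Continuous φ := by rw [hφ]; exact H.symm.continuous
  have hφq : ∀ y, φ (q (j y)) = y := by
    intro y
    rw [hφ, ← hHa]
    exact H.symm_apply_apply y
  have hqφ : ∀ u, q (j (φ u)) = u := by
    intro u
    rw [hφ, ← hHa]
    exact H.apply_symm_apply u
  -- the smoothness at the point over `b`
  have hqjs : ∀ y, ContMDiffAt (𝓡 m) (𝓡 m) ∞ (fun y => q (j y)) y := fun y =>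
    ContMDiffAt.comp (g := q) y (hnear (j y) (Or.inl (hpj y))).2.self_of_nhds (hjs y)
  obtain ⟨y1, hy1⟩ : ∃ y1, y1 = φ b := ⟨_, rfl⟩
  have hqy1 : q (j y1) = b := by rw [hy1, hqφ]
  have hld1 : LD m (fun y => q (j y)) y1 := by
    refine ift _ _ (Eventually.of_forall hqjs) ?_
    intro w hw
    have c1 : MDifferentiableAt (𝓡 m) (𝓡 (m + 1)) j y1 := (hjs y1).mdifferentiableAt hinf
    have c2 : MDifferentiableAt (𝓡 (m + 1)) (𝓡 m) q (j y1) :=
      (hnear (j y1) (Or.inl (hpj y1))).2.self_of_nhds.mdifferentiableAt hinf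
    have c3 : MDifferentiableAt (𝓡 (m + 1)) (𝓡 1) p (j y1) :=
      (hnear (j y1) (Or.inl (hpj y1))).1.self_of_nhds.mdifferentiableAt hinf
    have d1 : mfderiv (𝓡 m) (𝓡 m) (fun y => q (j y)) y1 =
        (mfderiv (𝓡 (m + 1)) (𝓡 m) q (j y1)).comp (mfderiv (𝓡 m) (𝓡 (m + 1)) j y1) :=
      mfderiv_comp y1 c2 c1
    have d2 : mfderiv (𝓡 m) (𝓡 1) (fun y => p (j y)) y1 =
        (mfderiv (𝓡 (m + 1)) (𝓡 1) p (j y1)).comp (mfderiv (𝓡 m) (𝓡 (m + 1)) j y1) :=
      mfderiv_comp y1 c3 c1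
    have d3 : (fun y => p (j y)) = fun _ => a := funext hpj
    have k1 : mfderiv (𝓡 (m + 1)) (𝓡 m) q (j y1) (mfderiv (𝓡 m) (𝓡 (m + 1)) j y1 w) = 0 := by
      have h1 := DFunLike.congr_fun d1.symm w
      exact h1.trans hw
    have k2 : mfderiv (𝓡 (m + 1)) (𝓡 1) p (j y1) (mfderiv (𝓡 m) (𝓡 (m + 1)) j y1 w) = 0 := by
      rw [d3, mfderiv_const] at d2
      exact DFunLike.congr_fun d2.symm w
    have k3 := (hTr (j y1) hqy1).2.2 _ k2 k1
    exact hjd y1 (k3.trans (map_zero _).symm)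
  have hVo : IsOpen {y | LD m (fun y => q (j y)) y} :=
    isOpen_iff_mem_nhds.2 fun y hy => LD.eventually hy
  have hldφ : LD m φ b := by
    have h1 : LD m φ ((fun y => q (j y)) y1) := LD.inverse (g := φ) hVo (fun x hx => hx)
      (fun x _ => hφq x) hld1
    have h2 : (fun y => q (j y)) y1 = b := hqy1
    rwa [h2] at h1
  have hV0 : {u | LD m φ u} ∈ 𝓝 b := hldφ.eventually
  -- the bump function
  obtain ⟨β, -, hβ0⟩ := (SmoothBumpFunction.nhds_basis_tsupport (I := 𝓡 m) b).mem_iff.1 hV0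
  have hβs : ContMDiff (𝓡 m) 𝓘(ℝ, ℝ) ∞ β := β.contMDiff
  have hβ1 : ∀ᶠ u in 𝓝 b, β u = 1 := β.eventuallyEq_one
  obtain ⟨V, hVβ, hVop, hbV⟩ := _root_.eventually_nhds_iff.1 hβ1
  obtain ⟨C, hC, hCc, hCV⟩ := exists_mem_nhds_isClosed_subset (hVop.mem_nhds hbV)
  have hbC : b ∈ interior C := mem_interior_iff_mem_nhds.2 hC
  have hVφ : ∀ u ∈ V, LD m φ u := by
    intro u hu
    apply hβ0
    apply subset_tsupport
    rw [mem_support, hVβ u hu]
    exact one_ne_zero
  -- the inverse of the cell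
  obtain ⟨ψ, hψ⟩ : ∃ ψ : Y → E m, ∀ z, ψ (cY z) = z :=
    ⟨invFun cY, leftInverse_invFun hci⟩
  have hψl : ∀ z, LD m ψ (cY z) := fun z =>
    LD.inverse isOpen_univ (fun x _ => hcl x) (fun x _ => hψ x) (mem_univ z)
  have hrc : ∀ y, q (j y) ≠ b → ∃ z, cY z = y := by
    intro y hy
    have h1 : y ∈ range cY := by rw [hcr]; exact hy
    exact h1
  have hψl' : ∀ y, q (j y) ≠ b → LD m ψ y := by
    intro y hy
    obtain ⟨z, rfl⟩ := hrc y hy
    exact hψl z
  have hK : IsCompact {y | q (j y) ∉ interior C} :=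
    (isOpen_interior.preimage hqjc).isClosed_compl.isCompact
  obtain ⟨R, hR⟩ := hK.exists_bound_of_continuousOn (f := ψ) (fun y hy =>
    (hψl' y (fun h => hy (by rw [h]; exact hbC))).continuousAt.continuousWithinAt)
  -- the extension
  have hjcY : ContMDiff (𝓡 m) (𝓡 (m + 1)) ∞ (fun s => j (cY s)) := fun s =>
    ContMDiffAt.comp (g := j) s (hjs _) (hcl s).contMDiffAt
  obtain ⟨τ, hτs, hτ⟩ := Pool.Agent.N550.KH.Ext.main m 1 M (fun s => j (cY s)) (hji.comp hci)
    hjcY (by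
      intro s
      have d1 : mfderiv (𝓡 m) (𝓡 (m + 1)) (fun s => j (cY s)) s =
          (mfderiv (𝓡 m) (𝓡 (m + 1)) j (cY s)).comp (mfderiv (𝓡 m) (𝓡 m) cY s) :=
        mfderiv_comp s ((hjs _).mdifferentiableAt hinf) (hcl s).mdifferentiableAt
      rw [d1]
      exact (hjd (cY s)).comp (hcl s).mfderiv_injective) id contDiff_id R
  obtain ⟨σ, hσ⟩ : ∃ σ : M → E m, ∀ x, σ x = (1 - β (q x)) • τ x + β (q x) • ψ (φ (q x)) :=
    ⟨_, fun _ => rfl⟩
  obtain ⟨π, hπ1, hπ2⟩ : ∃ π : M → Y, (∀ x, q x ∈ interior C → π x = φ (q x)) ∧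
      (∀ x, q x ∉ interior C → π x = cY (σ x)) := by
    classical
    exact ⟨fun x => if q x ∈ interior C then φ (q x) else cY (σ x), fun x hx => if_pos hx,
      fun x hx => if_neg hx⟩
  have hπV : ∀ x, q x ∈ V → π x = φ (q x) := by
    intro x hx
    by_cases h1 : q x ∈ interior C
    · exact hπ1 x h1
    have h2 : q x ≠ b := fun h => h1 (by rw [h]; exact hbC)
    obtain ⟨z, hz⟩ := hrc (φ (q x)) (by rw [hqφ]; exact h2)
    rw [hπ2 x h1, hσ, hVβ _ hx, sub_self, zero_smul, one_smul, zero_add, ← hz, hψ]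
  have hπj : ∀ y, π (j y) = y := by
    intro y
    by_cases h1 : q (j y) ∈ V
    · rw [hπV _ h1, hφq]
    have h2 : q (j y) ∉ interior C := fun h => h1 (hCV (interior_subset h))
    have h3 : q (j y) ≠ b := fun h => h2 (by rw [h]; exact hbC)
    obtain ⟨z, rfl⟩ := hrc y h3
    have h4 := hR (cY z) h2
    rw [hψ] at h4
    have h5 : τ (j (cY z)) = z := hτ z h4
    rw [hπ2 _ h2, hσ, h5, hφq, hψ, ← add_smul, sub_add_cancel, one_smul]
  have hπb : ∀ x, q x = b → π x = φ b := by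
    intro x hx
    rw [hπ1 x (by rw [hx]; exact hbC), hx]
  -- smoothness of the second summand
  have hG : ∀ u, u ≠ b → ContMDiffAt (𝓡 m) (𝓡 m) ∞ (fun u => β u • ψ (φ u)) u := by
    intro u hu
    by_cases h1 : LD m φ u
    · have h2 : LD m ψ (φ u) := hψl' _ (by rw [hqφ]; exact hu)
      exact ContMDiffAt.smul hβs.contMDiffAt
        (ContMDiffAt.comp (g := ψ) u h2.contMDiffAt h1.contMDiffAt)
    · have h2 : u ∉ tsupport β := fun h => h1 (hβ0 h)
      have h3 : (fun u => β u • ψ (φ u)) =ᶠ[𝓝 u] fun _ => 0 := by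
        filter_upwards [(isClosed_tsupport β).isOpen_compl.mem_nhds h2] with w hw
        rw [image_eq_zero_of_notMem_tsupport hw, zero_smul]
      exact contMDiffAt_const.congr_of_eventuallyEq h3
  have hsm : ∀ x, p x = a ∨ q x = b → ∀ᶠ y in 𝓝 x, ContMDiffAt (𝓡 (m + 1)) (𝓡 m) ∞ π y := by
    intro x hx
    have hqs := (hnear x hx).2
    by_cases h1 : q x ∈ V
    · filter_upwards [hqs, (hVop.preimage hqc).mem_nhds h1] with y hy1 hy2
      have h2 : ContMDiffAt (𝓡 (m + 1)) (𝓡 m) ∞ (fun x => φ (q x)) y :=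
        ContMDiffAt.comp (g := φ) y (hVφ _ hy2).contMDiffAt hy1
      refine h2.congr_of_eventuallyEq ?_
      filter_upwards [(hVop.preimage hqc).mem_nhds hy2] with w hw
      exact hπV w hw
    · have h2 : q x ∈ Cᶜ := fun h => h1 (hCV h)
      filter_upwards [hqs, (hCc.isOpen_compl.preimage hqc).mem_nhds h2] with y hy1 hy2
      have h3 : q y ≠ b := fun h => hy2 (by rw [h]; exact interior_subset hbC)
      have h4 : ContMDiffAt (𝓡 (m + 1)) (𝓡 m) ∞ (fun x => β (q x) • ψ (φ (q x))) y :=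
        ContMDiffAt.comp (g := fun u => β u • ψ (φ u)) y (hG _ h3) hy1
      have h5 : ContMDiffAt (𝓡 (m + 1)) 𝓘(ℝ, ℝ) ∞ (fun x => 1 - β (q x)) y :=
        contMDiffAt_const.sub (ContMDiffAt.comp (g := β) y hβs.contMDiffAt hy1)
      have h6 : ContMDiffAt (𝓡 (m + 1)) (𝓡 m) ∞ σ y := by
        have h7 : σ = fun x => (1 - β (q x)) • τ x + β (q x) • ψ (φ (q x)) := funext hσ
        rw [h7]
        exact (h5.smul hτs.contMDiffAt).add h4
      have h7 : ContMDiffAt (𝓡 (m + 1)) (𝓡 m) ∞ (fun x => cY (σ x)) y :=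
        ContMDiffAt.comp (g := cY) y (hcl _).contMDiffAt h6
      refine h7.congr_of_eventuallyEq ?_
      filter_upwards [(hCc.isOpen_compl.preimage hqc).mem_nhds hy2] with w hw
      exact hπ2 w (fun h => hw (interior_subset h))
  refine ⟨π, hπj, fun x hx => by rw [hπb x hx, hqφ], fun x hx => ⟨hsm x hx, ?_⟩⟩
  intro v hpv hπv
  rcases hx with hx | hx
  · have h1 : x ∈ range j := by rw [hrange]; exact hx
    obtain ⟨y, rfl⟩ := h1
    obtain ⟨w, rfl⟩ := hker y v hpv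
    have c1 : MDifferentiableAt (𝓡 m) (𝓡 (m + 1)) j y := (hjs y).mdifferentiableAt hinf
    have c2 : MDifferentiableAt (𝓡 (m + 1)) (𝓡 m) π (j y) :=
      (hsm (j y) (Or.inl hx)).self_of_nhds.mdifferentiableAt hinf
    have d1 : mfderiv (𝓡 m) (𝓡 m) (fun y => π (j y)) y =
        (mfderiv (𝓡 (m + 1)) (𝓡 m) π (j y)).comp (mfderiv (𝓡 m) (𝓡 (m + 1)) j y) :=
      mfderiv_comp y c2 c1
    have d2 : (fun y => π (j y)) = id := funext hπj
    rw [d2, mfderiv_id] at d1
    have h2 : w = 0 := (DFunLike.congr_fun d1 w).trans hπv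
    rw [h2]
    exact map_zero _
  · have c1 : MDifferentiableAt (𝓡 (m + 1)) (𝓡 m) q x :=
      (hTr x hx).2.1.self_of_nhds.mdifferentiableAt hinf
    have hqxV : q x ∈ V := by rw [hx]; exact hbV
    have c2 : MDifferentiableAt (𝓡 m) (𝓡 m) φ (q x) := (hVφ _ hqxV).mdifferentiableAt
    have d1 : mfderiv (𝓡 (m + 1)) (𝓡 m) (fun x => φ (q x)) x =
        (mfderiv (𝓡 m) (𝓡 m) φ (q x)).comp (mfderiv (𝓡 (m + 1)) (𝓡 m) q x) :=
      mfderiv_comp x c2 c1
    have d2 : π =ᶠ[𝓝 x] fun x => φ (q x) := by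
      filter_upwards [(hVop.preimage hqc).mem_nhds hqxV] with w hw
      exact hπV w hw
    have d3 : mfderiv (𝓡 (m + 1)) (𝓡 m) π x =
        mfderiv (𝓡 (m + 1)) (𝓡 m) (fun x => φ (q x)) x := d2.mfderiv_eq
    have h3 : mfderiv (𝓡 (m + 1)) (𝓡 m) (fun x => φ (q x)) x v = 0 :=
      (DFunLike.congr_fun d3.symm v).trans hπv
    have h4 : mfderiv (𝓡 m) (𝓡 m) φ (q x) (mfderiv (𝓡 (m + 1)) (𝓡 m) q x v) = 0 :=
      (DFunLike.congr_fun d1.symm v).trans h3
    have h5 : mfderiv (𝓡 (m + 1)) (𝓡 m) q x v = 0 :=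
      (hVφ _ hqxV).mfderiv_injective (h4.trans (map_zero _).symm)
    exact (hTr x hx).2.2 v hpv h5

end Pool.Agent.N550.PS.Pi
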