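import Pool.Agent.N550.PS.Stm

/-!
# Project PS: the product of the circle and a manifold (`S_PR`)
-/

set_option autoImplicit false
set_option linter.style.haveILetI false

open Set Filter Topology Metric Function MeasureTheory
open scoped Manifold ContDiff

noncomputable section

namespace Pool.Agent.N550.PS.Pr

open Pool.Agent.Y522 Pool.Agent.N550.SH Pool.Agent.N550.KH

section

variable {k m n : ℕ} (hn : k + m = n) {X Y : Type} [TopologicalSpace X] [ChartedSpace (E k) X]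
  [TopologicalSpace Y] [ChartedSpace (E m) Y]

/-- the chart in `E n` given by a chart in the product -/
def ch (e : OpenPartialHomeomorph (X × Y) (ModelProd (E k) (E m))) :
    OpenPartialHomeomorph (X × Y) (E n) :=
  e.trans (Y := ModelProd (E k) (E m)) (Jn hn).toHomeomorph.toOpenPartialHomeomorph

/-- the product as a manifold modelled on `E n` -/
@[reducible] def cs (X Y : Type) [TopologicalSpace X] [ChartedSpace (E k) X]
    [TopologicalSpace Y] [ChartedSpace (E m) Y] : ChartedSpace (E n) (X × Y) where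
  atlas := ch hn '' (atlas (ModelProd (E k) (E m)) (X × Y))
  chartAt z := ch hn (chartAt (ModelProd (E k) (E m)) z)
  mem_chart_source z := by
    simp [ch]
  chart_mem_atlas z := ⟨_, chart_mem_atlas _ _, rfl⟩

theorem tgt_iff {n' : ℕ} {M : Type} [TopologicalSpace M] [ChartedSpace (E n') M]
    (f : M → X × Y) (x : M) :
    letI := cs hn X Y
    (ContMDiffAt (𝓡 n') (𝓡 n) ∞ f x ↔ ContMDiffAt (𝓡 n') ((𝓡 k).prod (𝓡 m)) ∞ f x) := by
  letI := cs hn X Y
  rw [contMDiffAt_iff, contMDiffAt_iff]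
  refine and_congr Iff.rfl ?_
  exact ContinuousLinearEquiv.comp_contDiffWithinAt_iff
    (f := extChartAt ((𝓡 k).prod (𝓡 m)) (f x) ∘ f ∘ (extChartAt (𝓡 n') x).symm) (Jn hn)

theorem src_iff {n' : ℕ} {N : Type} [TopologicalSpace N] [ChartedSpace (E n') N]
    (g : X × Y → N) (z : X × Y) :
    letI := cs hn X Y
    (ContMDiffAt (𝓡 n) (𝓡 n') ∞ g z ↔ ContMDiffAt ((𝓡 k).prod (𝓡 m)) (𝓡 n') ∞ g z) := by
  letI := cs hn X Y
  rw [contMDiffAt_iff, contMDiffAt_iff]
  refine and_congr Iff.rfl ?_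
  have h := ContinuousLinearEquiv.contDiffWithinAt_comp_iff (n := (∞ : WithTop ℕ∞))
    (f := extChartAt (𝓡 n') (g z) ∘ g ∘ (extChartAt ((𝓡 k).prod (𝓡 m)) z).symm)
    (s := univ) (x := extChartAt ((𝓡 k).prod (𝓡 m)) z z) (Jn hn).symm
  have hr1 : range (𝓡 n) = univ := ModelWithCorners.range_eq_univ _
  have hr2 : range ((𝓡 k).prod (𝓡 m)) = univ := ModelWithCorners.range_eq_univ _
  rw [hr1, hr2]
  exact h

variable [IsManifold (𝓡 k) ∞ X] [IsManifold (𝓡 m) ∞ Y]

/-- the charts as partial diffeomorphisms -/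
def cPD (z₀ : X × Y) :
    letI := cs hn X Y
    PartialDiffeomorph (𝓡 n) (𝓡 n) (X × Y) (E n) ∞ :=
  letI := cs hn X Y
  { toPartialEquiv := (ch hn (chartAt (ModelProd (E k) (E m)) z₀)).toPartialEquiv
    open_source := (ch hn (chartAt (ModelProd (E k) (E m)) z₀)).open_source
    open_target := (ch hn (chartAt (ModelProd (E k) (E m)) z₀)).open_target
    contMDiffOn_toFun := by
      intro z hz
      refine ContMDiffAt.contMDiffWithinAt ?_
      rw [src_iff hn]
      have hz' : z ∈ (chartAt (ModelProd (E k) (E m)) z₀).source := by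
        simpa [ch] using hz
      have h1 : ContMDiffAt ((𝓡 k).prod (𝓡 m)) 𝓘(ℝ, E k × E m) ∞
          (extChartAt ((𝓡 k).prod (𝓡 m)) z₀) z := contMDiffAt_extChartAt' hz'
      exact ContMDiffAt.comp (g := Jn hn) z (Jn hn).contDiff.contMDiff.contMDiffAt h1
    contMDiffOn_invFun := by
      intro w hw
      refine ContMDiffAt.contMDiffWithinAt ?_
      rw [tgt_iff hn]
      have hw' : (Jn hn).symm w ∈ (extChartAt ((𝓡 k).prod (𝓡 m)) z₀).target := by
        have : (Jn hn).symm w ∈ (chartAt (ModelProd (E k) (E m)) z₀).target := by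
          simpa [ch] using hw
        rw [extChartAt_target]
        exact ⟨this, by rw [ModelWithCorners.range_eq_univ]; trivial⟩
      have h1 : ContMDiffAt 𝓘(ℝ, E k × E m) ((𝓡 k).prod (𝓡 m)) ∞
          (extChartAt ((𝓡 k).prod (𝓡 m)) z₀).symm ((Jn hn).symm w) :=
        (contMDiffOn_extChartAt_symm z₀).contMDiffAt
          ((isOpen_extChartAt_target z₀).mem_nhds hw')
      exact ContMDiffAt.comp (g := (extChartAt ((𝓡 k).prod (𝓡 m)) z₀).symm) w h1
        (Jn hn).symm.contDiff.contMDiff.contMDiffAt }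

end

/-- inverse function theorem for maps to the Euclidean space -/
theorem LD_of_inj {n : ℕ} {M : Type} [TopologicalSpace M] [ChartedSpace (E n) M]
    [IsManifold (𝓡 n) ∞ M] {H : M → E n} {x : M}
    (hH : ∀ᶠ y in 𝓝 x, ContMDiffAt (𝓡 n) (𝓡 n) ∞ H y)
    (hinj : ∀ v : TangentSpace (𝓡 n) x, mfderiv (𝓡 n) (𝓡 n) H x v = 0 → v = 0) :
    LD n H x := by
  set e := chartAt (E n) x with he
  have hx : x ∈ e.source := mem_chart_source _ x
  have hz : e x ∈ e.target := e.map_source hx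
  have hsm : ∀ᶠ z in 𝓝 (e x), ContDiffAt ℝ ∞ (fun z => H (e.symm z)) z := by
    have h1 : ContinuousAt e.symm (e x) := e.symm.continuousAt hz
    have h2 : ∀ᶠ z in 𝓝 (e x), ContMDiffAt (𝓡 n) (𝓡 n) ∞ H (e.symm z) :=
      h1.eventually (by rw [e.left_inv hx]; exact hH)
    filter_upwards [h2, e.open_target.mem_nhds hz] with z h3 h4
    exact contMDiffAt_iff_contDiffAt.1
      (ContMDiffAt.comp (g := H) z h3 (ld_chart_symm' x z h4).contMDiffAt)
  have hinj' : ∀ y, y = x → ∀ v : E n,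
      (mfderiv (𝓡 n) (𝓡 n) H y : E n →L[ℝ] E n) v = 0 → v = 0 := by
    rintro _ rfl
    exact hinj
  set A : E n →L[ℝ] E n := fderiv ℝ (fun z => H (e.symm z)) (e x) with hA
  have hld := ld_chart_symm' (n := n) x (e x) hz
  have hHx : MDifferentiableAt (𝓡 n) (𝓡 n) H (e.symm (e x)) := by
    rw [e.left_inv hx]
    exact hH.self_of_nhds.mdifferentiableAt (by simp)
  have hcomp : A = (mfderiv (𝓡 n) (𝓡 n) H (e.symm (e x)) : E n →L[ℝ] E n).comp
      (mfderiv (𝓡 n) (𝓡 n) e.symm (e x) : E n →L[ℝ] E n) := by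
    rw [hA, ← mfderiv_eq_fderiv]
    exact mfderiv_comp (e x) hHx hld.mdifferentiableAt
  have hAi : Injective (A : E n →ₗ[ℝ] E n) := by
    rw [injective_iff_map_eq_zero]
    intro v hv
    have h1 : A v = 0 := hv
    rw [hcomp] at h1
    have h2 := hinj' _ (e.left_inv hx) _ h1
    exact hld.mfderiv_injective (h2.trans (map_zero _).symm)
  set L : E n ≃L[ℝ] E n := (LinearEquiv.ofInjectiveEndo (A : E n →ₗ[ℝ] E n)
    hAi).toContinuousLinearEquiv with hL
  have hLA : (L : E n →L[ℝ] E n) = A := by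
    ext v
    rfl
  have h5 : LD n (fun z => H (e.symm z)) (e x) := by
    refine LD_of_contDiffAt hsm L ?_
    rw [hLA]
    exact ((hsm.self_of_nhds).differentiableAt (by simp)).hasFDerivAt
  have h6 : LD n e x := ld_chart' x x hx
  refine (h5.comp_fun h6).congr ?_
  filter_upwards [e.open_source.mem_nhds hx] with y hy
  rw [e.left_inv hy]

section

variable {k m n : ℕ} (hn : k + m = n) {X Y : Type} [TopologicalSpace X] [ChartedSpace (E k) X]
  [TopologicalSpace Y] [ChartedSpace (E m) Y]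

theorem part_b {M : Type} [TopologicalSpace M] [ChartedSpace (E n) M] (G : M → X × Y) (x : M)
    (h : letI := cs hn X Y; LD n G x) :
    IsLocalDiffeomorphAt (𝓡 n) ((𝓡 k).prod (𝓡 m)) ∞ G x := by
  letI := cs hn X Y
  obtain ⟨Φ, hx, heq⟩ := h
  refine ⟨{ toPartialEquiv := Φ.toPartialEquiv
            open_source := Φ.open_source
            open_target := Φ.open_target
            contMDiffOn_toFun := ?_
            contMDiffOn_invFun := ?_ }, hx, heq⟩
  · intro y hy
    refine ContMDiffAt.contMDiffWithinAt ?_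
    rw [← tgt_iff hn]
    exact (Φ.contMDiffOn_toFun y hy).contMDiffAt (Φ.open_source.mem_nhds hy)
  · intro z hz
    refine ContMDiffAt.contMDiffWithinAt ?_
    rw [← src_iff hn]
    exact (Φ.contMDiffOn_invFun z hz).contMDiffAt (Φ.open_target.mem_nhds hz)

variable [IsManifold (𝓡 k) ∞ X] [IsManifold (𝓡 m) ∞ Y]

theorem part_a {M : Type} [TopologicalSpace M] [ChartedSpace (E n) M] [IsManifold (𝓡 n) ∞ M]
    (p : M → X) (q : M → Y) (x : M)
    (hp : ∀ᶠ y in 𝓝 x, ContMDiffAt (𝓡 n) (𝓡 k) ∞ p y)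
    (hq : ∀ᶠ y in 𝓝 x, ContMDiffAt (𝓡 n) (𝓡 m) ∞ q y)
    (hinj : ∀ v : TangentSpace (𝓡 n) x, mfderiv (𝓡 n) (𝓡 k) p x v = 0 →
      mfderiv (𝓡 n) (𝓡 m) q x v = 0 → v = 0) :
    letI := cs hn X Y
    LD n (fun y => (p y, q y)) x := by
  letI := cs hn X Y
  set φ := chartAt (E k) (p x) with hφ
  set ψ := chartAt (E m) (q x) with hψ
  let H : M → E n := fun y => Jn hn (φ (p y), ψ (q y))
  have hpx : p x ∈ φ.source := mem_chart_source _ _
  have hqx : q x ∈ ψ.source := mem_chart_source _ _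
  have hpc : ∀ᶠ y in 𝓝 x, p y ∈ φ.source :=
    hp.self_of_nhds.continuousAt (φ.open_source.mem_nhds hpx)
  have hqc : ∀ᶠ y in 𝓝 x, q y ∈ ψ.source :=
    hq.self_of_nhds.continuousAt (ψ.open_source.mem_nhds hqx)
  have hφs : ∀ z ∈ φ.source, LD k φ z := fun z hz => ld_chart' (p x) z hz
  have hψs : ∀ z ∈ ψ.source, LD m ψ z := fun z hz => ld_chart' (q x) z hz
  have hH : ∀ᶠ y in 𝓝 x, ContMDiffAt (𝓡 n) (𝓡 n) ∞ H y := by
    filter_upwards [hp, hq, hpc, hqc] with y h1 h2 h3 h4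
    have a1 : ContMDiffAt (𝓡 n) (𝓡 k) ∞ (fun y => φ (p y)) y :=
      ContMDiffAt.comp (g := φ) y (hφs _ h3).contMDiffAt h1
    have a2 : ContMDiffAt (𝓡 n) (𝓡 m) ∞ (fun y => ψ (q y)) y :=
      ContMDiffAt.comp (g := ψ) y (hψs _ h4).contMDiffAt h2
    have a3 : ContMDiffAt (𝓡 n) 𝓘(ℝ, E k × E m) ∞ (fun y => (φ (p y), ψ (q y))) y :=
      a1.prodMk_space a2
    exact ContMDiffAt.comp (g := Jn hn) y (Jn hn).contDiff.contMDiff.contMDiffAt a3
  have hld : LD n H x := by
    refine LD_of_inj hH fun v hv => ?_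
    have h1 : MDifferentiableAt (𝓡 n) (𝓡 n) H x := hH.self_of_nhds.mdifferentiableAt (by simp)
    set D : E n →L[ℝ] E n := mfderiv (𝓡 n) (𝓡 n) H x with hD
    have ep : mfderiv (𝓡 n) (𝓡 k) (fun x => φ (p x)) x =
        (mfderiv (𝓡 k) (𝓡 k) φ (p x)).comp (mfderiv (𝓡 n) (𝓡 k) p x) :=
      mfderiv_comp x (hφs _ hpx).mdifferentiableAt
        (hp.self_of_nhds.mdifferentiableAt (by simp))
    have eq : mfderiv (𝓡 n) (𝓡 m) (fun x => ψ (q x)) x =
        (mfderiv (𝓡 m) (𝓡 m) ψ (q x)).comp (mfderiv (𝓡 n) (𝓡 m) q x) :=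
      mfderiv_comp x (hψs _ hqx).mdifferentiableAt
        (hq.self_of_nhds.mdifferentiableAt (by simp))
    set L₁ : E n →L[ℝ] E k := (ContinuousLinearMap.fst ℝ (E k) (E m)).comp
      ((Jn hn).symm : E n →L[ℝ] (E k × E m)) with hL₁
    set L₂ : E n →L[ℝ] E m := (ContinuousLinearMap.snd ℝ (E k) (E m)).comp
      ((Jn hn).symm : E n →L[ℝ] (E k × E m)) with hL₂
    have f₁ : (fun x => φ (p x)) = L₁ ∘ H := by
      funext y
      simp [hL₁, H]
    have f₂ : (fun x => ψ (q x)) = L₂ ∘ H := by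
      funext y
      simp [hL₂, H]
    have g₁ : mfderiv (𝓡 n) (𝓡 k) (fun x => φ (p x)) x = L₁.comp D := by
      rw [f₁, mfderiv_comp x (L₁.contDiff.contMDiff.mdifferentiableAt (n := ∞) (by simp)) h1]
      rw [mfderiv_eq_fderiv, L₁.fderiv]
      rfl
    have g₂ : mfderiv (𝓡 n) (𝓡 m) (fun x => ψ (q x)) x = L₂.comp D := by
      rw [f₂, mfderiv_comp x (L₂.contDiff.contMDiff.mdifferentiableAt (n := ∞) (by simp)) h1]
      rw [mfderiv_eq_fderiv, L₂.fderiv]
      rfl
    have hDv : D v = 0 := hv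
    have k₁ : (mfderiv (𝓡 k) (𝓡 k) φ (p x)) (mfderiv (𝓡 n) (𝓡 k) p x v) = 0 := by
      have h2 := DFunLike.congr_fun (ep.symm.trans g₁) v
      refine h2.trans ?_
      show L₁ (D v) = 0
      rw [hDv]
      exact map_zero _
    have k₂ : (mfderiv (𝓡 m) (𝓡 m) ψ (q x)) (mfderiv (𝓡 n) (𝓡 m) q x v) = 0 := by
      have h2 := DFunLike.congr_fun (eq.symm.trans g₂) v
      refine h2.trans ?_
      show L₂ (D v) = 0
      rw [hDv]
      exact map_zero _
    exact hinj v ((hφs _ hpx).mfderiv_injective (k₁.trans (map_zero _).symm))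
      ((hψs _ hqx).mfderiv_injective (k₂.trans (map_zero _).symm))
  have hsym : LD n (cPD hn (p x, q x)).symm (H x) := by
    refine ⟨(cPD hn (p x, q x)).symm, ?_, fun _ _ => rfl⟩
    change H x ∈ (ch hn (chartAt (ModelProd (E k) (E m)) (p x, q x))).target
    exact (ch hn (chartAt (ModelProd (E k) (E m)) (p x, q x))).map_source
      (mem_chart_source (E n) ((p x, q x) : X × Y))
  refine (hsym.comp_fun hld).congr ?_
  filter_upwards [hpc, hqc] with y h1 h2
  have hy : (p y, q y) ∈ (ch hn (chartAt (ModelProd (E k) (E m)) (p x, q x))).source := by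
    simp [ch]
    exact ⟨h1, h2⟩
  exact ((ch hn (chartAt (ModelProd (E k) (E m)) (p x, q x))).left_inv hy).symm

end

theorem main : S_PR := by
  intro m Y _ _ _
  have hn : 1 + m = m + 1 := add_comm 1 m
  refine ⟨cs hn (Sp 1) Y, ?_, ?_⟩
  · intro M _ _ _ p π x hp hπ hinj
    exact part_a hn p π x hp hπ hinj
  · intro M _ _ G x h
    exact part_b hn G x h

end Pool.Agent.N550.PS.Pr
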