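import Pool.Agent.N550.KH.All
import Pool.Agent.N550.PS.Fin
import Pool.Agent.N550.PS.Gen
import Pool.Agent.N550.PS.Fib
import Pool.Agent.N550.PS.Pi
import Pool.Agent.N550.PS.Pr
import Pool.Agent.N550.PS.Mov

/-!
# Project PS: all the lemmas together
-/

set_option autoImplicit false

open Set Filter Topology Metric Function MeasureTheory
open scoped Manifold ContDiff

noncomputable section

namespace Pool.Agent.N550.PS

open Pool.Agent.Y522 Pool.Agent.N550.SH

/-- **The theorem.** -/
theorem fin : S_FIN :=
  Fin'.main Gen.main Cir.main Fib.main Pi.main Pr.main Mov.main KH.Cell.main KH.asm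

end Pool.Agent.N550.PS
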