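import Pool.Agent.N550.PS.Stm
import Pool.Agent.N550.KH.All

/-!
# Project PS: the circle fibre becomes transversal (S_CIR), by helper935
-/

set_option autoImplicit false

open Set Filter Topology Metric Function MeasureTheory
open scoped Manifold ContDiff

noncomputable section

namespace Pool.Agent.N550.PS.Cir

open Pool.Agent.Y522 Pool.Agent.N550.SH Pool.Agent.N550.KH Pool.Agent.N550.PS

/-! ### The stereographic projection -/

theorem ste_neg (k : ℕ) (b : Sp k) : ste k (-b) b = 0 := by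
  have := Fact.mk (@finrank_euclideanSpace_fin ℝ _ (k + 1))
  have h := stereographic_neg_apply b
  show (OrthonormalBasis.fromOrthogonalSpanSingleton k (ne_zero_of_mem_unit_sphere (-b))).repr
    (stereographic (norm_eq_of_mem_sphere (-b)) b) = 0
  rw [h, map_zero]

theorem ste_max (k : ℕ) (a : Sp k) :
    ste k a ∈ IsManifold.maximalAtlas (𝓡 k) ∞ (Sp k) := by
  have := Fact.mk (@finrank_euclideanSpace_fin ℝ _ (k + 1))
  exact IsManifold.subset_maximalAtlas ⟨a, rfl⟩

theorem ste_ld (k : ℕ) (a u : Sp k) (h : u ≠ a) : LD k (ste k a) u := by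
  refine ⟨{ toPartialEquiv := (ste k a).toPartialEquiv
            open_source := (ste k a).open_source
            open_target := (ste k a).open_target
            contMDiffOn_toFun := contMDiffOn_of_mem_maximalAtlas (ste_max k a)
            contMDiffOn_invFun := contMDiffOn_symm_of_mem_maximalAtlas (ste_max k a) }, ?_,
            fun _ _ => rfl⟩
  show u ∈ (ste k a).source
  rw [ste_source]
  exact h

theorem ste_symm_smooth (k : ℕ) (a : Sp k) (z : E k) :
    ContMDiffAt (𝓡 k) (𝓡 k) ∞ (ste k a).symm z := by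
  have h := contMDiffOn_symm_of_mem_maximalAtlas (ste_max k a)
  refine (h z ?_).contMDiffAt ((ste k a).open_target.mem_nhds ?_)
  · rw [ste_target]; trivial
  · rw [ste_target]; trivial

theorem ste_symm_ne (k : ℕ) (a : Sp k) (z : E k) : (ste k a).symm z ≠ a := by
  have h := (ste k a).map_target (x := z) (by rw [ste_target]; trivial)
  rw [ste_source] at h
  exact h

theorem ste_right (k : ℕ) (a : Sp k) (z : E k) : ste k a ((ste k a).symm z) = z :=
  (ste k a).right_inv (by rw [ste_target]; trivial)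

theorem ste_left (k : ℕ) (a u : Sp k) (h : u ≠ a) : (ste k a).symm (ste k a u) = u :=
  (ste k a).left_inv (by rw [ste_source]; exact h)

theorem ste_inj (k : ℕ) (a u v : Sp k) (hu : u ≠ a) (hv : v ≠ a) (h : ste k a u = ste k a v) :
    u = v := by
  rw [← ste_left k a u hu, h, ste_left k a v hv]

/-- the linear identification -/
def JL (l : ℕ) (lam : ℝ) (h : lam ≠ 0) : (E 1 × E l) ≃L[ℝ] E (1 + l) :=
  ContinuousLinearEquiv.equivOfInverse
    ((Jn.jnL 1 l).comp ((lam • ContinuousLinearMap.fst ℝ (E 1) (E l)).prod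
      (ContinuousLinearMap.snd ℝ (E 1) (E l))))
    ((lam⁻¹ • up 1 l).prod (vp 1 l))
    (by
      intro z
      show (lam⁻¹ • up 1 l (jn 1 l (lam • z.1) z.2), vp 1 l (jn 1 l (lam • z.1) z.2)) = z
      rw [up_jn, vp_jn, smul_smul, inv_mul_cancel₀ h, one_smul])
    (by
      intro z
      show jn 1 l (lam • (lam⁻¹ • up 1 l z)) (vp 1 l z) = z
      rw [smul_smul, mul_inv_cancel₀ h, one_smul, jn_up_vp])

theorem JL_apply (l : ℕ) (lam : ℝ) (h : lam ≠ 0) (z : E 1 × E l) :
    JL l lam h z = jn 1 l (lam • z.1) z.2 := rfl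

section

variable {l : ℕ} {M : Type} [TopologicalSpace M] [ChartedSpace (E (1 + l)) M]

/-- the map into the Euclidean space -/
def Gm (lam : ℝ) (a : Sp 1) (b : Sp l) (p : M → Sp 1) (q : M → Sp l) (x : M) : E (1 + l) :=
  jn 1 l (lam • ste 1 a (p x)) (ste l b (q x))

theorem Gm_smooth (lam : ℝ) (h : lam ≠ 0) (a : Sp 1) (b : Sp l) {p : M → Sp 1} {q : M → Sp l}
    {x : M} (hp : ContMDiffAt (𝓡 (1 + l)) (𝓡 1) ∞ p x) (hq : ContMDiffAt (𝓡 (1 + l)) (𝓡 l) ∞ q x)
    (ha : p x ≠ a) (hb : q x ≠ b) :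
    ContMDiffAt (𝓡 (1 + l)) (𝓡 (1 + l)) ∞ (Gm lam a b p q) x := by
  have h3 : ContMDiffAt (𝓡 (1 + l)) (𝓡 1) ∞ (fun x => ste 1 a (p x)) x :=
    ContMDiffAt.comp (g := ste 1 a) x (ste_smooth 1 a _ ha) hp
  have h4 : ContMDiffAt (𝓡 (1 + l)) (𝓡 l) ∞ (fun x => ste l b (q x)) x :=
    ContMDiffAt.comp (g := ste l b) x (ste_smooth l b _ hb) hq
  have h5 : ContMDiffAt (𝓡 (1 + l)) 𝓘(ℝ, E 1 × E l) ∞
      (fun x => (ste 1 a (p x), ste l b (q x))) x := h3.prodMk_space h4
  exact ContMDiffAt.comp (g := JL l lam h) x (JL l lam h).contDiff.contMDiff.contMDiffAt h5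

theorem ker_iff [IsManifold (𝓡 (1 + l)) ∞ M] (lam : ℝ) (h : lam ≠ 0) (a : Sp 1) (b : Sp l)
    {p : M → Sp 1} {q : M → Sp l} {x : M}
    (hp : ContMDiffAt (𝓡 (1 + l)) (𝓡 1) ∞ p x) (hq : ContMDiffAt (𝓡 (1 + l)) (𝓡 l) ∞ q x)
    (ha : p x ≠ a) (hb : q x ≠ b) (v : TangentSpace (𝓡 (1 + l)) x) :
    mfderiv (𝓡 (1 + l)) (𝓡 (1 + l)) (Gm lam a b p q) x v = 0 ↔
      mfderiv (𝓡 (1 + l)) (𝓡 1) p x v = 0 ∧ mfderiv (𝓡 (1 + l)) (𝓡 l) q x v = 0 := by
  have h1 : MDifferentiableAt (𝓡 (1 + l)) (𝓡 (1 + l)) (Gm lam a b p q) x :=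
    (Gm_smooth lam h a b hp hq ha hb).mdifferentiableAt (by simp)
  set D : E (1 + l) →L[ℝ] E (1 + l) :=
    mfderiv (𝓡 (1 + l)) (𝓡 (1 + l)) (Gm lam a b p q) x with hD
  have ep : mfderiv (𝓡 (1 + l)) (𝓡 1) (fun x => ste 1 a (p x)) x =
      (mfderiv (𝓡 1) (𝓡 1) (ste 1 a) (p x)).comp (mfderiv (𝓡 (1 + l)) (𝓡 1) p x) :=
    mfderiv_comp x ((ste_smooth 1 a _ ha).mdifferentiableAt (by simp))
      (hp.mdifferentiableAt (by simp))
  have eq : mfderiv (𝓡 (1 + l)) (𝓡 l) (fun x => ste l b (q x)) x =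
      (mfderiv (𝓡 l) (𝓡 l) (ste l b) (q x)).comp (mfderiv (𝓡 (1 + l)) (𝓡 l) q x) :=
    mfderiv_comp x ((ste_smooth l b _ hb).mdifferentiableAt (by simp))
      (hq.mdifferentiableAt (by simp))
  set L₁ : E (1 + l) →L[ℝ] E 1 := lam⁻¹ • up 1 l with hL₁
  set L₂ : E (1 + l) →L[ℝ] E l := vp 1 l with hL₂
  have f₁ : (fun x => ste 1 a (p x)) = L₁ ∘ (Gm lam a b p q) := by
    funext y
    show ste 1 a (p y) = lam⁻¹ • up 1 l (jn 1 l (lam • ste 1 a (p y)) (ste l b (q y)))
    rw [up_jn, smul_smul, inv_mul_cancel₀ h, one_smul]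
  have f₂ : (fun x => ste l b (q x)) = L₂ ∘ (Gm lam a b p q) := by
    funext y
    show ste l b (q y) = vp 1 l (jn 1 l (lam • ste 1 a (p y)) (ste l b (q y)))
    rw [vp_jn]
  have g₁ : mfderiv (𝓡 (1 + l)) (𝓡 1) (fun x => ste 1 a (p x)) x = L₁.comp D := by
    rw [f₁, mfderiv_comp x (L₁.contDiff.contMDiff.mdifferentiableAt (n := ∞) (by simp)) h1]
    rw [mfderiv_eq_fderiv, L₁.fderiv]
    rfl
  have g₂ : mfderiv (𝓡 (1 + l)) (𝓡 l) (fun x => ste l b (q x)) x = L₂.comp D := by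
    rw [f₂, mfderiv_comp x (L₂.contDiff.contMDiff.mdifferentiableAt (n := ∞) (by simp)) h1]
    rw [mfderiv_eq_fderiv, L₂.fderiv]
    rfl
  have k₁ : L₁ (D v) = (mfderiv (𝓡 1) (𝓡 1) (ste 1 a) (p x)) (mfderiv (𝓡 (1 + l)) (𝓡 1) p x v) :=
    DFunLike.congr_fun (g₁.symm.trans ep) v
  have k₂ : L₂ (D v) = (mfderiv (𝓡 l) (𝓡 l) (ste l b) (q x)) (mfderiv (𝓡 (1 + l)) (𝓡 l) q x v) :=
    DFunLike.congr_fun (g₂.symm.trans eq) v
  constructor
  · intro hv
    have hv' : D v = 0 := hv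
    rw [hv'] at k₁ k₂
    constructor
    · apply (ste_ld 1 a _ ha).mfderiv_injective
      rw [← k₁]
      exact (map_zero L₁).trans (map_zero _).symm
    · apply (ste_ld l b _ hb).mfderiv_injective
      rw [← k₂]
      exact (map_zero L₂).trans (map_zero _).symm
  · rintro ⟨hpv, hqv⟩
    show D v = 0
    have e₁ : L₁ (D v) = 0 := by
      rw [k₁, hpv]
      exact map_zero _
    have e₂ : L₂ (D v) = 0 := by
      rw [k₂, hqv]
      exact map_zero _
    have e₃ : up 1 l (D v) = 0 := by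
      have : lam⁻¹ • up 1 l (D v) = 0 := e₁
      exact (smul_eq_zero.1 this).resolve_left (inv_ne_zero h)
    rw [← jn_up_vp 1 l (D v), e₃, show vp 1 l (D v) = 0 from e₂]
    exact map_zero (Jn.jnL 1 l)

/-- the inverse function theorem -/
theorem ld_of_inj {n : ℕ} {M : Type} [TopologicalSpace M] [ChartedSpace (E n) M]
    [IsManifold (𝓡 n) ∞ M] (G : M → E n) (x : M) (hG : Sm n G x)
    (hi : Injective (mfderiv (𝓡 n) (𝓡 n) G x)) : LD n G x := by
  set e := chartAt (E n) x with he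
  have hxs : x ∈ e.source := mem_chart_source _ x
  set z0 := e x with hz0
  have hz0t : z0 ∈ e.target := e.map_source hxs
  have hsymm0 : e.symm z0 = x := e.left_inv hxs
  have htend : Tendsto e.symm (𝓝 z0) (𝓝 x) := by
    have := e.continuousAt_symm hz0t
    unfold ContinuousAt at this
    rwa [hsymm0] at this
  have hsm : ∀ᶠ z in 𝓝 z0, ContDiffAt ℝ ∞ (fun z => G (e.symm z)) z := by
    filter_upwards [htend.eventually hG, e.open_target.mem_nhds hz0t] with z hz1 hz2
    exact contMDiffAt_iff_contDiffAt.1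
      (ContMDiffAt.comp (g := G) z hz1 (ld_chart_symm' x z hz2).contMDiffAt)
  have hd := (hsm.self_of_nhds.differentiableAt (by simp)).hasFDerivAt
  have hls : LD n e.symm z0 := ld_chart_symm' x z0 hz0t
  have hGx : MDifferentiableAt (𝓡 n) (𝓡 n) G (e.symm z0) := by
    rw [hsymm0]
    exact hG.self_of_nhds.mdifferentiableAt (by simp)
  have hc : mfderiv (𝓡 n) (𝓡 n) (fun z => G (e.symm z)) z0 =
      (mfderiv (𝓡 n) (𝓡 n) G (e.symm z0)).comp (mfderiv (𝓡 n) (𝓡 n) e.symm z0) :=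
    mfderiv_comp z0 hGx hls.mdifferentiableAt
  have hinj : Injective (fderiv ℝ (fun z => G (e.symm z)) z0) := by
    rw [injective_iff_map_eq_zero]
    intro w hw
    have h1 : mfderiv (𝓡 n) (𝓡 n) (fun z => G (e.symm z)) z0 w = 0 := by
      rw [mfderiv_eq_fderiv]
      exact hw
    rw [hc] at h1
    have h2 : mfderiv (𝓡 n) (𝓡 n) G (e.symm z0) (mfderiv (𝓡 n) (𝓡 n) e.symm z0 w) = 0 := h1
    have hi' : Injective (mfderiv (𝓡 n) (𝓡 n) G (e.symm z0)) := by
      rw [hsymm0]
      exact hi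
    have h3 : mfderiv (𝓡 n) (𝓡 n) e.symm z0 w = 0 := hi' (h2.trans (map_zero _).symm)
    exact hls.mfderiv_injective (h3.trans (map_zero _).symm)
  obtain ⟨A, hA⟩ : ∃ A : E n ≃L[ℝ] E n, (A : E n →L[ℝ] E n) =
      fderiv ℝ (fun z => G (e.symm z)) z0 := by
    refine ⟨(LinearEquiv.ofInjectiveEndo
      (fderiv ℝ (fun z => G (e.symm z)) z0 : E n →ₗ[ℝ] E n) hinj).toContinuousLinearEquiv, ?_⟩
    ext w : 1
    rfl
  have hLD : LD n (fun z => G (e.symm z)) z0 := LD_of_contDiffAt hsm A (by rw [hA]; exact hd)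
  refine (LD.comp_fun (g := fun z => G (e.symm z)) (f := e) hLD (ld_chart' x x hxs)).congr ?_
  filter_upwards [e.open_source.mem_nhds hxs] with y hy
  rw [e.left_inv hy]

theorem Tr_ld [IsManifold (𝓡 (1 + l)) ∞ M] (lam : ℝ) (h : lam ≠ 0) (a : Sp 1) (b : Sp l)
    {p : M → Sp 1} {q : M → Sp l} {x : M} (hT : Tr (1 + l) p q x) (hs : Sm (1 + l) (Gm lam a b p q) x)
    (ha : p x ≠ a) (hb : q x ≠ b) : LD (1 + l) (Gm lam a b p q) x := by
  refine ld_of_inj _ x hs ?_
  obtain ⟨hp, hq, hk⟩ := hT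
  have key : ∀ v : TangentSpace (𝓡 (1 + l)) x,
      mfderiv (𝓡 (1 + l)) (𝓡 (1 + l)) (Gm lam a b p q) x v = 0 → v = 0 := by
    intro v hv
    obtain ⟨h1, h2⟩ := (ker_iff lam h a b hp.self_of_nhds hq.self_of_nhds ha hb v).1 hv
    exact hk v h1 h2
  exact (injective_iff_map_eq_zero
    (mfderiv (𝓡 (1 + l)) (𝓡 (1 + l)) (Gm lam a b p q) x : E (1 + l) →L[ℝ] E (1 + l))).2 key

theorem ld_Tr [IsManifold (𝓡 (1 + l)) ∞ M] (lam : ℝ) (h : lam ≠ 0) (a : Sp 1) (b : Sp l)
    {p : M → Sp 1} {q : M → Sp l} {x : M} (hp : NearS (n := 1 + l) p x)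
    (hq : NearS (n := 1 + l) q x) (ha : p x ≠ a) (hb : q x ≠ b)
    (hld : LD (1 + l) (Gm lam a b p q) x) : Tr (1 + l) p q x := by
  refine ⟨hp, hq, fun v h1 h2 => ?_⟩
  have h3 := (ker_iff lam h a b hp.self_of_nhds hq.self_of_nhds ha hb v).2 ⟨h1, h2⟩
  exact hld.mfderiv_injective (h3.trans (map_zero _).symm)

theorem Tr_congr {p p' : M → Sp 1} {q q' : M → Sp l} {x : M} (hT : Tr (1 + l) p q x)
    (h1 : p' =ᶠ[𝓝 x] p) (h2 : q' =ᶠ[𝓝 x] q) : Tr (1 + l) p' q' x := by
  obtain ⟨hp, hq, hk⟩ := hT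
  refine ⟨?_, ?_, fun v hv1 hv2 => ?_⟩
  · filter_upwards [hp, h1.eventuallyEq_nhds] with y hy hy'
    exact hy.congr_of_eventuallyEq hy'
  · filter_upwards [hq, h2.eventuallyEq_nhds] with y hy hy'
    exact hy.congr_of_eventuallyEq hy'
  · refine hk v ?_ ?_
    · have := h1.mfderiv_eq (I := 𝓡 (1 + l)) (I' := 𝓡 1)
      rw [this] at hv1
      exact hv1
    · have := h2.mfderiv_eq (I := 𝓡 (1 + l)) (I' := 𝓡 l)
      rw [this] at hv2
      exact hv2

end

/-- **S_CIR.** -/
theorem main : S_CIR := by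
  intro l M _ _ _ _ _ p q a b P hl hpq hnull hP haP hsub hTr
  have hpc : Continuous p := continuous_fst.comp hpq.continuous
  have hqc : Continuous q := continuous_snd.comp hpq.continuous
  have hbb : b ≠ -b := ne_neg_of_mem_unit_sphere ℝ b
  -- the scaling factor
  obtain ⟨lam, hlam0, hlamP⟩ : ∃ lam : ℝ, 0 < lam ∧ ∀ u : Sp 1, 1 ≤ lam * ‖ste 1 a u‖ → u ∈ P := by
    have hc : IsCompact (Pᶜ) := hP.isClosed_compl.isCompact
    have hcont : ContinuousOn (ste 1 a) Pᶜ := by
      refine (ste 1 a).continuousOn.mono ?_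
      rw [ste_source]
      intro u hu hua
      rw [mem_singleton_iff] at hua
      rw [hua] at hu
      exact hu haP
    obtain ⟨C, hC⟩ := hc.exists_bound_of_continuousOn hcont
    have hC0 : 0 < max C 0 + 1 := by
      have := le_max_right C 0
      linarith
    refine ⟨1 / (max C 0 + 1), by positivity, fun u hu => ?_⟩
    by_contra huP
    have h1 := hC u huP
    have h2 := le_max_left C 0
    rw [one_div, inv_mul_eq_div, le_div_iff₀ hC0] at hu
    linarith
  have hlam : lam ≠ 0 := hlam0.ne'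
  -- the chart
  set F : OpenPartialHomeomorph M (E (1 + l)) :=
    (IsHomeomorph.homeomorph _ hpq).toOpenPartialHomeomorph ≫ₕ
      ((ste 1 a).prod (ste l (-b))) ≫ₕ (JL l lam hlam).toHomeomorph.toOpenPartialHomeomorph with hF
  have hFx : ∀ x, F x = Gm lam a (-b) p q x := fun x => rfl
  have hFs : ∀ x, x ∈ F.source ↔ p x ≠ a ∧ q x ≠ -b := by
    intro x
    have : (IsHomeomorph.homeomorph _ hpq) x = (p x, q x) := rfl
    simp [hF, ste_source, this]
  have hFt : F.target = univ := by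
    ext y
    simp [hF, ste_target]
  have hup : ∀ x, up 1 l (F x) = lam • ste 1 a (p x) := fun x => by rw [hFx]; exact up_jn _ _ _ _
  have hvp : ∀ x, vp 1 l (F x) = ste l (-b) (q x) := fun x => by rw [hFx]; exact vp_jn _ _ _ _
  have hqb : ∀ u : Sp l, u ≠ -b → ste l (-b) u = 0 → u = b := by
    intro u hu h0
    exact ste_inj l (-b) u b hu hbb (h0.trans (ste_neg l b).symm)
  have hnorm : ∀ x, ‖up 1 l (F x)‖ = lam * ‖ste 1 a (p x)‖ := by
    intro x
    rw [hup, norm_smul, Real.norm_eq_abs, abs_of_pos hlam0]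
  -- smoothness of the chart
  have hSmF : ∀ x ∈ F.source, NearS (n := 1 + l) p x → NearS (n := 1 + l) q x →
      Sm (1 + l) F x := by
    intro x hx h1 h2
    have h3 : ∀ᶠ y in 𝓝 x, y ∈ F.source := F.open_source.mem_nhds hx
    show ∀ᶠ y in 𝓝 x, ContMDiffAt (𝓡 (1 + l)) (𝓡 (1 + l)) ∞ F y
    filter_upwards [h1, h2, h3] with y hy1 hy2 hy3
    obtain ⟨hy4, hy5⟩ := (hFs y).1 hy3
    exact Gm_smooth lam hlam a (-b) hy1 hy2 hy4 hy5
  have hLDF : ∀ x ∈ F.source, Tr (1 + l) p q x → LD (1 + l) F x := by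
    intro x hx hT
    obtain ⟨h4, h5⟩ := (hFs x).1 hx
    exact Tr_ld lam hlam a (-b) hT (hSmF x hx hT.1 hT.2.1) h4 h5
  -- the hypotheses of the arc lemma
  have hyp1 : ∀ x ∈ F.source, vp 1 l (F x) = 0 → ‖up 1 l (F x)‖ < 2 → Sm (1 + l) F x ∧
      Surjective (mfderiv (𝓡 (1 + l)) (𝓡 l) (fun y => vp 1 l (F y)) x) := by
    intro x hx h0 _
    obtain ⟨h4, h5⟩ := (hFs x).1 hx
    rw [hvp] at h0
    obtain ⟨n1, n2, n3⟩ := hsub x (hqb _ h5 h0)
    refine ⟨hSmF x hx n1 n2, ?_⟩
    have e1 : (fun y => vp 1 l (F y)) = fun y => ste l (-b) (q y) := by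
      funext y
      exact hvp y
    have e2 : mfderiv (𝓡 (1 + l)) (𝓡 l) (fun y => ste l (-b) (q y)) x =
        (mfderiv (𝓡 l) (𝓡 l) (ste l (-b)) (q x)).comp (mfderiv (𝓡 (1 + l)) (𝓡 l) q x) :=
      mfderiv_comp x ((ste_smooth l (-b) _ h5).mdifferentiableAt (by simp))
        (n2.self_of_nhds.mdifferentiableAt (by simp))
    rw [e1, e2]
    have hsj : Surjective (mfderiv (𝓡 l) (𝓡 l) (ste l (-b)) (q x)) := by
      have h := (ste_ld l (-b) _ h5).mfderivToContinuousLinearEquiv_coe (by simp)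
      rw [← h]
      exact ((ste_ld l (-b) _ h5).mfderivToContinuousLinearEquiv (by simp)).surjective
    exact hsj.comp n3
  have hyp2 : ∀ x ∈ F.source, vp 1 l (F x) = 0 → 1 ≤ ‖up 1 l (F x)‖ → LD (1 + l) F x := by
    intro x hx h0 h1
    obtain ⟨h4, h5⟩ := (hFs x).1 hx
    rw [hvp] at h0
    rw [hnorm] at h1
    exact hLDF x hx (hTr x (hqb _ h5 h0) (hlamP _ h1))
  obtain ⟨F', C, hF's, hF't, hCc, hCs, hCSm, hCF, hF1, hSm', hLD', hcore⟩ :=
    arc l M F hFt hyp1 hyp2
  -- the homeomorphism of `M`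
  classical
  set K : M → M := fun x => if x ∈ F.source then F.symm (F' x) else x with hK
  have hKs : ∀ x, x ∈ F.source → K x = F.symm (F' x) := fun x hx => by
    simp only [hK]; rw [if_pos hx]
  have hKn : ∀ x, x ∉ F.source → K x = x := fun x hx => by
    simp only [hK]; rw [if_neg hx]
  have hsymm : ∀ z, F.symm z ∈ F.source := fun z => F.map_target (by rw [hFt]; trivial)
  have hright : ∀ z, F (F.symm z) = z := fun z => F.right_inv (by rw [hFt]; trivial)
  have hKC : ∀ x, x ∉ C → K x = x := by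
    intro x hx
    by_cases hs : x ∈ F.source
    · rw [hKs x hs, hCF x hx, F.left_inv hs]
    · exact hKn x hs
  have hKsrc : ∀ x, x ∈ F.source → K x ∈ F.source := fun x hx => by
    rw [hKs x hx]; exact hsymm _
  have hFK : ∀ x, x ∈ F.source → F (K x) = F' x := fun x hx => by
    rw [hKs x hx]; exact hright _
  have hCcl : IsClosed C := hCc.isClosed
  have hKcont : Continuous K := by
    rw [continuous_iff_continuousAt]
    intro x
    by_cases hx : x ∈ F.source
    · have h1 : ContinuousAt (fun x => F.symm (F' x)) x := by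
        have h2 : ContinuousAt F' x := F'.continuousAt (by rw [hF's]; exact hx)
        have h3 : ContinuousAt F.symm (F' x) := F.continuousAt_symm (by rw [hFt]; trivial)
        exact ContinuousAt.comp h3 h2
      refine h1.congr ?_
      filter_upwards [F.open_source.mem_nhds hx] with y hy
      rw [hKs y hy]
    · have hxC : x ∈ Cᶜ := fun h => hx (hCs h)
      refine continuousAt_id.congr ?_
      filter_upwards [hCcl.isOpen_compl.mem_nhds hxC] with y hy
      rw [hKC y hy]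
      rfl
  have hKinj : Injective K := by
    intro x y hxy
    by_cases hx : x ∈ F.source
    · by_cases hy : y ∈ F.source
      · have h1 : F' x = F' y := by rw [← hFK x hx, hxy, hFK y hy]
        exact F'.injOn (by rw [hF's]; exact hx) (by rw [hF's]; exact hy) h1
      · exfalso
        apply hy
        rw [← hKn y hy, ← hxy]
        exact hKsrc x hx
    · by_cases hy : y ∈ F.source
      · exfalso
        apply hx
        rw [← hKn x hx, hxy]
        exact hKsrc y hy
      · rw [← hKn x hx, hxy, hKn y hy]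
  have hKsurj : Surjective K := by
    intro y
    by_cases hy : y ∈ F.source
    · refine ⟨F'.symm (F y), ?_⟩
      have h1 : F'.symm (F y) ∈ F.source := by
        rw [← hF's]
        exact F'.map_target (by rw [hF't]; trivial)
      rw [hKs _ h1, F'.right_inv (by rw [hF't]; trivial), F.left_inv hy]
    · exact ⟨y, hKn y hy⟩
  have hKhom : IsHomeomorph K :=
    isHomeomorph_iff_continuous_bijective.2 ⟨hKcont, hKinj, hKsurj⟩
  set p' : M → Sp 1 := fun x => p (K x) with hp'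
  set q' : M → Sp l := fun x => q (K x) with hq'
  have hp'n : ∀ x, x ∈ F.source → p' x ≠ a := fun x hx => ((hFs _).1 (hKsrc x hx)).1
  have hq'n : ∀ x, x ∈ F.source → q' x ≠ -b := fun x hx => ((hFs _).1 (hKsrc x hx)).2
  have hG' : ∀ x, x ∈ F.source → Gm lam a (-b) p' q' x = F' x := by
    intro x hx
    rw [← hFK x hx, hFx]
    rfl
  have hste1 : ∀ x, x ∈ F.source → p' x = (ste 1 a).symm (lam⁻¹ • up 1 l (F' x)) := by
    intro x hx
    rw [← hG' x hx]
    show _ = (ste 1 a).symm (lam⁻¹ • up 1 l (jn 1 l (lam • ste 1 a (p' x)) (ste l (-b) (q' x))))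
    rw [up_jn, smul_smul, inv_mul_cancel₀ hlam, one_smul, ste_left 1 a _ (hp'n x hx)]
  have hste2 : ∀ x, x ∈ F.source → q' x = (ste l (-b)).symm (vp 1 l (F' x)) := by
    intro x hx
    rw [← hG' x hx]
    show _ = (ste l (-b)).symm (vp 1 l (jn 1 l (lam • ste 1 a (p' x)) (ste l (-b) (q' x))))
    rw [vp_jn, ste_left l (-b) _ (hq'n x hx)]
  -- smoothness of the new maps
  have hsm1 : ∀ x ∈ F.source, Sm (1 + l) F' x →
      NearS (n := 1 + l) p' x ∧ NearS (n := 1 + l) q' x := by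
    intro x hx hS
    have h3 : ∀ᶠ y in 𝓝 x, ∀ᶠ z in 𝓝 y, z ∈ F.source :=
      eventually_eventually_nhds.2 (F.open_source.mem_nhds hx)
    constructor
    · show ∀ᶠ y in 𝓝 x, ContMDiffAt (𝓡 (1 + l)) (𝓡 1) ∞ p' y
      filter_upwards [hS, h3] with y hy1 hy2
      have h4 : ContMDiffAt (𝓡 (1 + l)) (𝓡 1) ∞
          (fun z => (lam⁻¹ • up 1 l : E (1 + l) →L[ℝ] E 1) (F' z)) y :=
        ContMDiffAt.comp (g := (lam⁻¹ • up 1 l : E (1 + l) →L[ℝ] E 1)) y
          (lam⁻¹ • up 1 l : E (1 + l) →L[ℝ] E 1).contDiff.contMDiff.contMDiffAt hy1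
      have h5 : ContMDiffAt (𝓡 (1 + l)) (𝓡 1) ∞
          (fun z => (ste 1 a).symm ((lam⁻¹ • up 1 l : E (1 + l) →L[ℝ] E 1) (F' z))) y :=
        ContMDiffAt.comp (g := (ste 1 a).symm) y (ste_symm_smooth 1 a _) h4
      refine h5.congr_of_eventuallyEq ?_
      filter_upwards [hy2] with z hz
      exact hste1 z hz
    · show ∀ᶠ y in 𝓝 x, ContMDiffAt (𝓡 (1 + l)) (𝓡 l) ∞ q' y
      filter_upwards [hS, h3] with y hy1 hy2
      have h4 : ContMDiffAt (𝓡 (1 + l)) (𝓡 l) ∞ (fun z => vp 1 l (F' z)) y :=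
        ContMDiffAt.comp (g := vp 1 l) y (vp 1 l).contDiff.contMDiff.contMDiffAt hy1
      have h5 : ContMDiffAt (𝓡 (1 + l)) (𝓡 l) ∞
          (fun z => (ste l (-b)).symm (vp 1 l (F' z))) y :=
        ContMDiffAt.comp (g := (ste l (-b)).symm) y (ste_symm_smooth l (-b) _) h4
      refine h5.congr_of_eventuallyEq ?_
      filter_upwards [hy2] with z hz
      exact hste2 z hz
  have hout : ∀ x, x ∉ C → p' =ᶠ[𝓝 x] p ∧ q' =ᶠ[𝓝 x] q := by
    intro x hx
    constructor
    · filter_upwards [hCcl.isOpen_compl.mem_nhds hx] with y hy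
      simp only [hp', hKC y hy]
    · filter_upwards [hCcl.isOpen_compl.mem_nhds hx] with y hy
      simp only [hq', hKC y hy]
  have hnear : ∀ x, NearS (n := 1 + l) p x → NearS (n := 1 + l) q x →
      NearS (n := 1 + l) p' x ∧ NearS (n := 1 + l) q' x := by
    intro x h1 h2
    by_cases hx : x ∈ F.source
    · exact hsm1 x hx (hSm' x hx (hSmF x hx h1 h2))
    · obtain ⟨e1, e2⟩ := hout x (fun h => hx (hCs h))
      constructor
      · show ∀ᶠ y in 𝓝 x, ContMDiffAt (𝓡 (1 + l)) (𝓡 1) ∞ p' y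
        filter_upwards [h1, e1.eventuallyEq_nhds] with y hy hy'
        exact hy.congr_of_eventuallyEq hy'
      · show ∀ᶠ y in 𝓝 x, ContMDiffAt (𝓡 (1 + l)) (𝓡 l) ∞ q' y
        filter_upwards [h2, e2.eventuallyEq_nhds] with y hy hy'
        exact hy.congr_of_eventuallyEq hy'
  refine ⟨p', q', {u | u = a ∨ 1 < lam * ‖ste 1 a u‖}, hpq.comp hKhom, ?_, ?_, Or.inl rfl, ?_, ?_,
    ?_⟩
  · -- null set
    refine measure_mono_null ?_ hnull
    rintro _ ⟨x, hx, rfl⟩
    have hxC : x ∉ C := fun h => hx (hsm1 x (hCs h) (hSm' x (hCs h) (hCSm x h)))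
    refine ⟨x, fun h => hx (hnear x h.1 h.2), ?_⟩
    simp only [hp', hq', hKC x hxC]
  · -- open
    have h1 : IsCompact ((ste 1 a).symm '' closedBall 0 (1 / lam)) := by
      refine (isCompact_closedBall _ _).image_of_continuousOn ?_
      refine (ste 1 a).continuousOn_symm.mono ?_
      rw [ste_target]
      exact subset_univ _
    have h2 : {u | u = a ∨ 1 < lam * ‖ste 1 a u‖} =
        ((ste 1 a).symm '' closedBall 0 (1 / lam))ᶜ := by
      ext u
      rw [mem_compl_iff]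
      constructor
      · rintro (hu | hu) ⟨z, hz, hzu⟩
        · exact ste_symm_ne 1 a z (hzu.trans hu)
        · rw [mem_closedBall_zero_iff, le_div_iff₀ hlam0] at hz
          rw [← hzu, ste_right] at hu
          linarith
      · intro hu
        by_contra hcon
        rw [mem_setOf_eq] at hcon
        push Not at hcon
        refine hu ⟨ste 1 a u, ?_, ste_left 1 a u hcon.1⟩
        rw [mem_closedBall_zero_iff, le_div_iff₀ hlam0]
        linarith [hcon.2]
    rw [h2]
    exact h1.isClosed.isOpen_compl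
  · intro x hx
    have hKx : K x = x := by
      by_cases hs : x ∈ F.source
      · rcases hx with hx | hx
        · exact absurd hx ((hFs x).1 hs).1
        · rw [hKs x hs, hF1 x hs (by rw [hnorm]; exact hx.le), F.left_inv hs]
      · exact hKn x hs
    simp only [hp', hq', hKx]
    exact ⟨trivial, trivial⟩
  · intro x
    by_cases hs : x ∈ F.source
    · exact ⟨fun h => absurd h (hp'n x hs), fun h => absurd h ((hFs x).1 hs).1⟩
    · simp only [hp', hKn x hs]
  · intro x hx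
    by_cases hs : x ∈ F.source
    · have hv0 : vp 1 l (F' x) = 0 := by
        rw [← hFK x hs, hvp]
        show ste l (-b) (q' x) = 0
        rw [hx]
        exact ste_neg l b
      have hLDx : LD (1 + l) F' x := by
        by_cases hle : ‖up 1 l (F' x)‖ ≤ 1
        · exact hcore x hs hv0 hle
        · push Not at hle
          have h1 : F' (K x) = F (K x) := hF1 _ (hKsrc x hs) (by rw [hFK x hs]; exact hle.le)
          have h2 : K x = x := by
            refine F'.injOn (by rw [hF's]; exact hKsrc x hs) (by rw [hF's]; exact hs) ?_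
            rw [h1, hFK x hs]
          have h3 : F x = F' x := by
            have := hFK x hs
            rwa [h2] at this
          refine hLD' x hs (hyp2 x hs ?_ ?_)
          · rw [h3]; exact hv0
          · rw [h3]; exact hle.le
      have hSx : Sm (1 + l) F' x := by
        show ∀ᶠ y in 𝓝 x, ContMDiffAt (𝓡 (1 + l)) (𝓡 (1 + l)) ∞ F' y
        filter_upwards [hLDx.eventually] with y hy
        exact hy.contMDiffAt
      obtain ⟨n1, n2⟩ := hsm1 x hs hSx
      refine ld_Tr lam hlam a (-b) n1 n2 (hp'n x hs) (hq'n x hs) (hLDx.congr ?_)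
      filter_upwards [F.open_source.mem_nhds hs] with y hy
      exact hG' y hy
    · obtain ⟨e1, e2⟩ := hout x (fun h => hs (hCs h))
      have hqx : q x = b := by
        have := hx
        simp only [hq', hKn x hs] at this
        exact this
      have hpx : p x = a := by
        by_contra hpa
        exact hs ((hFs x).2 ⟨hpa, by rw [hqx]; exact hbb⟩)
      exact Tr_congr (hTr x hqx (by rw [hpx]; exact haP)) e1 e2

end Pool.Agent.N550.PS.Cir
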