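import Pool.Agent.N550.KH.Stm
import Pool.Agent.N550.SH.Two

/-!
# Project PS: statements

Smooth homeomorphisms onto the product of the circle and the 3-sphere.
`E n` is the Euclidean space of dimension `n`, `Sp k` the unit sphere of `E (k + 1)`, `LD n f x`
says that `f` is a local diffeomorphism at `x` (both spaces are manifolds modelled on `E n`).
-/

set_option autoImplicit false

open Set Filter Topology Metric Function MeasureTheory
open scoped Manifold ContDiff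

noncomputable section

namespace Pool.Agent.N550.PS

open Pool.Agent.Y522 Pool.Agent.N550.SH Pool.Agent.N550.KH

/-- `p` and `q` are smooth near `x` and the kernels of their derivatives at `x` meet in zero -/
def Tr (n : ℕ) {k l : ℕ} {M : Type} [TopologicalSpace M] [ChartedSpace (E n) M]
    (p : M → Sp k) (q : M → Sp l) (x : M) : Prop :=
  NearS (n := n) p x ∧ NearS (n := n) q x ∧
    ∀ v : TangentSpace (𝓡 n) x, mfderiv (𝓡 n) (𝓡 k) p x v = 0 →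
      mfderiv (𝓡 n) (𝓡 l) q x v = 0 → v = 0

/-- the image of the set of the points near which `p` or `q` is not smooth has one-dimensional
Hausdorff measure zero -/
def NullS (n : ℕ) {k l : ℕ} {M : Type} [TopologicalSpace M] [ChartedSpace (E n) M]
    (p : M → Sp k) (q : M → Sp l) : Prop :=
  Measure.hausdorffMeasure 1 ((fun x => (p x, q x)) ''
    {x | ¬ (NearS (n := n) p x ∧ NearS (n := n) q x)}) = 0

/-- Generic fibres. -/
def S_GEN : Prop :=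
  ∀ (k l n : ℕ) (M : Type) [TopologicalSpace M] [ChartedSpace (E n) M] [IsManifold (𝓡 n) ∞ M]
    (p : M → Sp k) (q : M → Sp l), k + l = n → 0 < k → 0 < l →
    IsHomeomorph (fun x => (p x, q x)) → NullS n p q →
    ∃ (a : Sp k) (b : Sp l) (P : Set (Sp k)) (Q : Set (Sp l)), IsOpen P ∧ IsOpen Q ∧ a ∈ P ∧
      b ∈ Q ∧
      (∀ x, p x = a → NearS (n := n) p x ∧ NearS (n := n) q x ∧
        Surjective (mfderiv (𝓡 n) (𝓡 k) p x)) ∧
      (∀ x, q x = b → NearS (n := n) p x ∧ NearS (n := n) q x ∧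
        Surjective (mfderiv (𝓡 n) (𝓡 l) q x)) ∧
      ∀ x, p x ∈ P → q x ∈ Q → Tr n p q x

/-- The fibre of `q` becomes transversal to the fibres of `p`. -/
def S_CIR : Prop :=
  ∀ (l : ℕ) (M : Type) [TopologicalSpace M] [CompactSpace M] [T2Space M]
    [ChartedSpace (E (1 + l)) M] [IsManifold (𝓡 (1 + l)) ∞ M] (p : M → Sp 1) (q : M → Sp l)
    (a : Sp 1) (b : Sp l) (P : Set (Sp 1)), 0 < l → IsHomeomorph (fun x => (p x, q x)) →
    NullS (1 + l) p q → IsOpen P → a ∈ P →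
    (∀ x, q x = b → NearS (n := 1 + l) p x ∧ NearS (n := 1 + l) q x ∧
      Surjective (mfderiv (𝓡 (1 + l)) (𝓡 l) q x)) →
    (∀ x, q x = b → p x ∈ P → Tr (1 + l) p q x) →
    ∃ (p' : M → Sp 1) (q' : M → Sp l) (P' : Set (Sp 1)), IsHomeomorph (fun x => (p' x, q' x)) ∧
      NullS (1 + l) p' q' ∧ IsOpen P' ∧ a ∈ P' ∧
      (∀ x, p x ∈ P' → p' x = p x ∧ q' x = q x) ∧ (∀ x, p' x = a ↔ p x = a) ∧
      ∀ x, q' x = b → Tr (1 + l) p' q' x

/-- The fibre of `p` is a manifold. -/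
def S_FIB : Prop :=
  ∀ (m : ℕ) (M : Type) [TopologicalSpace M] [ChartedSpace (E (m + 1)) M]
    [IsManifold (𝓡 (m + 1)) ∞ M] (p : M → Sp 1) (a : Sp 1), Continuous p →
    (∀ x, p x = a → NearS (n := m + 1) p x ∧ Surjective (mfderiv (𝓡 (m + 1)) (𝓡 1) p x)) →
    ∃ cs : ChartedSpace (E m) {x : M // p x = a},
      IsManifold (𝓡 m) ∞ {x : M // p x = a} ∧
      ContMDiff (𝓡 m) (𝓡 (m + 1)) ∞ (Subtype.val : {x : M // p x = a} → M) ∧
      (∀ y : {x : M // p x = a},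
        Injective (mfderiv (𝓡 m) (𝓡 (m + 1)) (Subtype.val : {x : M // p x = a} → M) y)) ∧
      ∀ (y : {x : M // p x = a}) (v : TangentSpace (𝓡 (m + 1)) (y : M)),
        mfderiv (𝓡 (m + 1)) (𝓡 1) p (y : M) v = 0 →
        ∃ w, mfderiv (𝓡 m) (𝓡 (m + 1)) (Subtype.val : {x : M // p x = a} → M) y w = v

/-- The second projection. -/
def S_PI : Prop :=
  ∀ (m : ℕ) (M Y : Type) [TopologicalSpace M] [CompactSpace M] [T2Space M]
    [ChartedSpace (E (m + 1)) M] [IsManifold (𝓡 (m + 1)) ∞ M] [TopologicalSpace Y]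
    [CompactSpace Y] [T2Space Y] [ChartedSpace (E m) Y] [IsManifold (𝓡 m) ∞ Y]
    (j : Y → M) (p : M → Sp 1) (q : M → Sp m) (a : Sp 1) (b : Sp m) (cY : E m → Y),
    0 < m → IsHomeomorph (fun x => (p x, q x)) →
    (∀ x, p x = a ∨ q x = b → NearS (n := m + 1) p x ∧ NearS (n := m + 1) q x) →
    (∀ x, q x = b → Tr (m + 1) p q x) →
    Injective j → ContMDiff (𝓡 m) (𝓡 (m + 1)) ∞ j →
    (∀ y, Injective (mfderiv (𝓡 m) (𝓡 (m + 1)) j y)) → range j = {x | p x = a} →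
    (∀ (y : Y) (v : TangentSpace (𝓡 (m + 1)) (j y)),
      mfderiv (𝓡 (m + 1)) (𝓡 1) p (j y) v = 0 → ∃ w, mfderiv (𝓡 m) (𝓡 (m + 1)) j y w = v) →
    Injective cY → (∀ z, LD m cY z) → range cY = {y | q (j y) ≠ b} →
    ∃ π : M → Y, (∀ y, π (j y) = y) ∧ (∀ x, q x = b → q (j (π x)) = b) ∧
      ∀ x, p x = a ∨ q x = b → (∀ᶠ y in 𝓝 x, ContMDiffAt (𝓡 (m + 1)) (𝓡 m) ∞ π y) ∧
        ∀ v : TangentSpace (𝓡 (m + 1)) x, mfderiv (𝓡 (m + 1)) (𝓡 1) p x v = 0 →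
          mfderiv (𝓡 (m + 1)) (𝓡 m) π x v = 0 → v = 0

/-- The product of the circle and a manifold, as a manifold modelled on `E (m + 1)`. -/
def S_PR : Prop :=
  ∀ (m : ℕ) (Y : Type) [TopologicalSpace Y] [ChartedSpace (E m) Y] [IsManifold (𝓡 m) ∞ Y],
    ∃ cs : ChartedSpace (E (m + 1)) (Sp 1 × Y),
      (∀ (M : Type) [TopologicalSpace M] [ChartedSpace (E (m + 1)) M]
        [IsManifold (𝓡 (m + 1)) ∞ M] (p : M → Sp 1) (π : M → Y) (x : M),
        NearS (n := m + 1) p x → (∀ᶠ y in 𝓝 x, ContMDiffAt (𝓡 (m + 1)) (𝓡 m) ∞ π y) →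
        (∀ v : TangentSpace (𝓡 (m + 1)) x, mfderiv (𝓡 (m + 1)) (𝓡 1) p x v = 0 →
          mfderiv (𝓡 (m + 1)) (𝓡 m) π x v = 0 → v = 0) →
        LD (m + 1) (fun y => (p y, π y)) x) ∧
      ∀ (M : Type) [TopologicalSpace M] [ChartedSpace (E (m + 1)) M] (G : M → Sp 1 × Y) (x : M),
        LD (m + 1) G x → IsLocalDiffeomorphAt (𝓡 (m + 1)) ((𝓡 1).prod (𝓡 m)) ∞ G x

/-- Moving points: the fibre `Y` minus any point is a cell. -/
def S_MOV : Prop :=
  ∀ (m : ℕ) (Y : Type) [TopologicalSpace Y] [CompactSpace Y] [T2Space Y] [ChartedSpace (E m) Y]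
    [IsManifold (𝓡 m) ∞ Y] (cY : E m → Y) (y₁ : Y), 0 < m → Injective cY →
    (∀ z, LD m cY z) → range cY = {y₁}ᶜ → ∀ y₂ : Y,
    ∃ κ : Y ≃ₜ Sp m, ∀ y, y ≠ y₂ → LD m κ y

/-- The theorem: the first form. -/
def S_FIN : Prop :=
  ∀ (M : Type) [TopologicalSpace M] [ChartedSpace (E 4) M] [IsManifold (𝓡 4) ∞ M]
    (p : M → Sp 1) (q : M → Sp 3), IsHomeomorph (fun x => (p x, q x)) → NullS 4 p q →
    ∃ (Y : Type) (_ : TopologicalSpace Y) (_ : ChartedSpace (E 3) Y)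
      (_ : IsManifold (𝓡 3) ∞ Y) (G : M ≃ₜ Sp 1 × Y) (x₀ : M),
      (∀ x, x ≠ x₀ → IsLocalDiffeomorphAt (𝓡 4) ((𝓡 1).prod (𝓡 3)) ∞ G x) ∧
      ∀ y₀ : Y, ∃ κ : Y ≃ₜ Sp 3, ∀ y, y ≠ y₀ → LD 3 κ y

end Pool.Agent.N550.PS
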